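import Pool.Agent.H410Z.RL.Two

set_option autoImplicit false

namespace Pool.Agent.H410Z.RL

open Lab

variable {P : Type} [MetricSpace P] [Lab P]

/-- In a chain of four renamings at most one step moves the point. -/
lemma chain {S₁ W₁ S₂ W₂ H₁ H₂ E₁ E₂ F₁ F₂ Y₁ Y₂ : Set P} (hs1 : S₁ ⊆ W₁) (hs2 : S₂ ⊆ W₂)
    (hE2 : E₂ ⊆ H₂) (hF2 : F₂ ⊆ E₂) (hY1 : W₁ ⊆ Y₁) (hY2 : W₂ ⊆ Y₂) {a a' b' b'' b : P}
    (r1 : RV S₁ W₁ E₁ (W₂ ∪ H₂ ∪ E₁) a a') (r2 : RV H₁ (W₁ ∪ H₁) H₂ (W₂ ∪ H₂) a' b')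
    (r3 : RV F₁ Y₁ F₂ Y₂ b' b'') (r4 : RV E₂ (W₁ ∪ H₁ ∪ E₂) S₂ W₂ b'' b) :
    (a = b) ∨
    (MM S₁ W₁ E₁ (W₂ ∪ H₂ ∪ E₁) a a' ∧ a' = b) ∨
    (a = a' ∧ MM H₁ (W₁ ∪ H₁) H₂ (W₂ ∪ H₂) a' b' ∧ b' = b) ∨
    (a = b' ∧ MM F₁ Y₁ F₂ Y₂ b' b'' ∧ b'' = b) ∨
    (a = b'' ∧ MM E₂ (W₁ ∪ H₁ ∪ E₂) S₂ W₂ b'' b) := by
  have ha : a ∈ W₁ := hs1 r1.left
  have hb : b ∈ W₂ := hs2 r4.right
  have hb'' : b'' ∈ H₂ := hE2 (hF2 r3.right)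
  rcases r1 with ⟨rfl, -⟩ | m1
  · rcases r2 with ⟨rfl, -⟩ | m2
    · rcases r3 with ⟨rfl, -⟩ | m3
      · rcases r4 with ⟨rfl, -⟩ | m4
        · exact Or.inl rfl
        · exact Or.inr (Or.inr (Or.inr (Or.inr ⟨rfl, m4⟩)))
      · rcases r4 with ⟨rfl, -⟩ | m4
        · exact Or.inr (Or.inr (Or.inr (Or.inl ⟨rfl, m3, rfl⟩)))
        · exact (clash m3.cl2 m4.cl1 (hY2 hb) (Or.inl (Or.inl ha)) m4.ne.symm m3.ne).elim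
    · rcases r3 with ⟨rfl, -⟩ | m3
      · rcases r4 with ⟨rfl, -⟩ | m4
        · exact Or.inr (Or.inr (Or.inl ⟨rfl, m2, rfl⟩))
        · exact (clash m2.cl2 m4.cl1 (Or.inl hb) (Or.inl (Or.inl ha)) m4.ne.symm m2.ne).elim
      · exact (clash m2.cl2 m3.cl1 (Or.inr hb'') (hY1 ha) m3.ne.symm m2.ne).elim
  · rcases r2 with ⟨rfl, -⟩ | m2
    · rcases r3 with ⟨rfl, -⟩ | m3
      · rcases r4 with ⟨rfl, -⟩ | m4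
        · exact Or.inr (Or.inl ⟨m1, rfl⟩)
        · exact (clash m1.cl2 m4.cl1 (Or.inl (Or.inl hb)) (Or.inl (Or.inl ha)) m4.ne.symm
            m1.ne).elim
      · exact (clash m1.cl2 m3.cl1 (Or.inl (Or.inr hb'')) (hY1 ha) m3.ne.symm m1.ne).elim
    · exact (clash m1.cl2 m2.cl1 (Or.inl (Or.inr m2.2.2.1)) (Or.inl ha) m2.ne.symm m1.ne).elim

lemma chain_RV {S₁ W₁ S₂ W₂ H₁ H₂ E₁ E₂ F₁ F₂ Y₁ Y₂ : Set P} (hs1 : S₁ ⊆ W₁) (hs2 : S₂ ⊆ W₂)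
    (hE2 : E₂ ⊆ H₂) (hF2 : F₂ ⊆ E₂) (hY1 : W₁ ⊆ Y₁) (hY2 : W₂ ⊆ Y₂) {a a' b' b'' b : P}
    (r1 : RV S₁ W₁ E₁ (W₂ ∪ H₂ ∪ E₁) a a') (r2 : RV H₁ (W₁ ∪ H₁) H₂ (W₂ ∪ H₂) a' b')
    (r3 : RV F₁ Y₁ F₂ Y₂ b' b'') (r4 : RV E₂ (W₁ ∪ H₁ ∪ E₂) S₂ W₂ b'' b) :
    RV S₁ W₁ S₂ W₂ a b := by
  have ha := r1.left
  have hb := r4.right
  rcases chain hs1 hs2 hE2 hF2 hY1 hY2 r1 r2 r3 r4 with rfl | ⟨m, rfl⟩ | ⟨rfl, m, rfl⟩ |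
    ⟨rfl, m, rfl⟩ | ⟨rfl, m⟩
  · exact Or.inl ⟨rfl, ha, hb⟩
  · exact Or.inr (MM_of hs1 hs2 ha hb m.adj m.cl1 (m.cl2.mono fun _ h => Or.inl (Or.inl h)))
  · exact Or.inr (MM_of hs1 hs2 ha hb m.adj (m.cl1.mono fun _ h => Or.inl h)
      (m.cl2.mono fun _ h => Or.inl h))
  · exact Or.inr (MM_of hs1 hs2 ha hb m.adj (m.cl1.mono hY1) (m.cl2.mono hY2))
  · exact Or.inr (MM_of hs1 hs2 ha hb m.adj (m.cl1.mono fun _ h => Or.inl (Or.inl h)) m.cl2)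

open Classical in
/-- raise the allowance on a set -/
noncomputable def raise (Q : P → Prop) (a b : P → ℕ) (x : P) : ℕ :=
  if Q x then max (a x) 1 else b x

open Classical in
/-- final allowance -/
noncomputable def fin (S : Set P) (a b c : P → ℕ) (x : P) : ℕ :=
  if x ∈ S then max (b x) (c x) else a x

variable [IsUltrametricDist P]

theorem weak_node (N : ℕ) (hD : ∀ t : T P, NF t → mu t < N → Dia t) {s r : T P}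
    (hn : NF (T.n s r)) (hN : mu (T.n s r) ≤ N)
    {S₁ W₁ : Set P} {h₁ : ℕ} {a₁ : P → ℕ} {S₂ W₂ : Set P} {h₂ : ℕ} {a₂ : P → ℕ}
    (hs1 : S₁ ⊆ W₁) (hs2 : S₂ ⊆ W₂)
    {H₁ : Set P} {a₁₁ a₁₂ : P → ℕ} (hH1 : S₁ ⊆ H₁) (pr1 : ¬ supp (T.n s r) ⊆ H₁)
    (st11 : Step a₁ a₁₁) (st12 : Step a₁ a₁₂) (g1s : Good H₁ (W₁ ∪ H₁) (h₁ + 1) a₁₁ s)
    (g1r : Good H₁ (W₁ ∪ H₁) (h₁ + 1) a₁₂ r) (g1T : Good S₁ W₁ h₁ a₁ (ph H₁ (.n s r)))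
    {H₂ : Set P} {a₂₁ a₂₂ : P → ℕ} (hH2 : S₂ ⊆ H₂) (pr2 : ¬ supp (T.n s r) ⊆ H₂)
    (st21 : Step a₂ a₂₁) (st22 : Step a₂ a₂₂) (g2s : Good H₂ (W₂ ∪ H₂) (h₂ + 1) a₂₁ s)
    (g2r : Good H₂ (W₂ ∪ H₂) (h₂ + 1) a₂₂ r) (g2T : Good S₂ W₂ h₂ a₂ (ph H₂ (.n s r))) :
    DiaW (T.n s r) S₁ W₁ h₁ a₁ S₂ W₂ := by
  have hmu : mu (T.n s r) = mu s + mu r + 1 := rfl
  have m1 := mu_ph_lt pr1
  have m2 := mu_ph_lt pr2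
  have sr1 : H₁ ⊆ W₁ ∪ H₁ := Set.subset_union_right
  have sr2 : H₂ ⊆ W₂ ∪ H₂ := Set.subset_union_right
  -- Stage A
  obtain ⟨rs, ds, a2s, ns, gs⟩ := hD s hn.1 (by omega) _ _ _ _ _ _ _ _ sr1 sr2 g1s g2s
  obtain ⟨rr, dr, a2r, nr, gr⟩ := hD r hn.2.1 (by omega) _ _ _ _ _ _ _ _ sr1 sr2 g1r g2r
  obtain ⟨-, -, a1s, ns', gs'⟩ := hD s hn.1 (by omega) _ _ _ _ _ _ _ _ sr2 sr1 g2s g1s
  obtain ⟨-, -, a1r, nr', gr'⟩ := hD r hn.2.1 (by omega) _ _ _ _ _ _ _ _ sr2 sr1 g2r g1r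
  have buH := RV_bu sr1 sr2
  have geoH : Geo (RV H₁ (W₁ ∪ H₁) H₂ (W₂ ∪ H₂)) (H₁ ∩ H₂) := RV_geo sr1
  generalize hE₁ : EL H₁ (W₁ ∪ H₁) H₂ (W₂ ∪ H₂) = E₁ at *
  generalize hE₂ : EL H₂ (W₂ ∪ H₂) H₁ (W₁ ∪ H₁) = E₂ at *
  have E1H : E₁ ⊆ H₁ := hE₁ ▸ EL_sub
  have E2H : E₂ ⊆ H₂ := hE₂ ▸ EL_sub
  have CE1 : ∀ p, p ∈ H₁ → p ∈ H₂ → p ∈ E₁ := fun p h1 h2 => hE₁ ▸ mem_EL h1 h2
  have CE2 : ∀ p, p ∈ H₁ → p ∈ H₂ → p ∈ E₂ := fun p h1 h2 => hE₂ ▸ mem_EL h2 h1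
  have G₂ : Good E₂ (W₁ ∪ H₁ ∪ E₂) h₁ a₁ (ph H₂ (.n s r)) :=
    two N hD (NF_ph H₂ r) ((mu_ph_le H₂ s).trans_lt (by omega)) Set.subset_union_right
      (ns.step st11) (nr.step st12) gs gr
  have G₁ : Good E₁ (W₂ ∪ H₂ ∪ E₁) h₂ a₂ (ph H₁ (.n s r)) :=
    two N hD (NF_ph H₁ r) ((mu_ph_le H₁ s).trans_lt (by omega)) Set.subset_union_right
      (ns'.step st21) (nr'.step st22) gs' gr'
  have RH : Ren (RV H₁ (W₁ ∪ H₁) H₂ (W₂ ∪ H₂)) (H₁ ∩ H₂) (ph E₁ (.n s r)) (ph E₂ (.n s r)) :=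
    Ren.mul buH rs rr
  have dH : ∀ a b, MM H₁ (W₁ ∪ H₁) H₂ (W₂ ∪ H₂) a b → a ∈ supp (ph E₁ (.n s r)) → a₁ a = 0 := by
    intro a b hm ha
    rcases supp_mul _ _ ha with ha | ha
    · have := ds a b hm ha
      have := (st11 a).1
      omega
    · have := dr a b hm ha
      have := (st12 a).1
      omega
  clear rs ds ns gs rr dr nr gr ns' gs' nr' gr' g1s g1r g2s g2r st11 st12 st21 st22 hE₁ hE₂
  generalize T.n s r = t at *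
  -- Stage B
  obtain ⟨rB, dB, b₁, nB, gB⟩ := hD _ (NF_ph H₁ t) (by omega) _ _ _ _ _ _ _ _ hs1
    Set.subset_union_right g1T G₁
  obtain ⟨rB', dB', ah, nB', gB'⟩ := hD _ (NF_ph H₂ t) (by omega) _ _ _ _ _ _ _ _
    Set.subset_union_right hs2 G₂ g2T
  obtain ⟨-, -, c₂, -, gB''⟩ := hD _ (NF_ph H₂ t) (by omega) _ _ _ _ _ _ _ _ hs2
    Set.subset_union_right g2T G₂
  have bu1 : BU (RV S₁ W₁ E₁ (W₂ ∪ H₂ ∪ E₁)) (S₁ ∩ E₁) := RV_bu hs1 Set.subset_union_right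
  have bu2 : BU (RV E₂ (W₁ ∪ H₁ ∪ E₂) S₂ W₂) (E₂ ∩ S₂) := RV_bu Set.subset_union_right hs2
  have geo2 : Geo (RV E₂ (W₁ ∪ H₁ ∪ E₂) S₂ W₂) (E₂ ∩ S₂) := RV_geo Set.subset_union_right
  generalize hG1 : EL S₁ W₁ E₁ (W₂ ∪ H₂ ∪ E₁) = G1 at *
  generalize hF₁ : EL E₁ (W₂ ∪ H₂ ∪ E₁) S₁ W₁ = F₁ at *
  generalize hF₂ : EL E₂ (W₁ ∪ H₁ ∪ E₂) S₂ W₂ = F₂ at *
  generalize hG2 : EL S₂ W₂ E₂ (W₁ ∪ H₁ ∪ E₂) = G2 at *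
  have G1S : G1 ⊆ S₁ := hG1 ▸ EL_sub
  have F1E : F₁ ⊆ E₁ := hF₁ ▸ EL_sub
  have F2E : F₂ ⊆ E₂ := hF₂ ▸ EL_sub
  have G2S : G2 ⊆ S₂ := hG2 ▸ EL_sub
  have G1mem : ∀ a b, RV S₁ W₁ E₁ (W₂ ∪ H₂ ∪ E₁) a b → a ∈ G1 := fun a b h => hG1 ▸ ⟨b, h⟩
  have F1ex : ∀ b ∈ F₁, ∃ a, RV S₁ W₁ E₁ (W₂ ∪ H₂ ∪ E₁) a b := by
    intro b hb; rw [← hF₁] at hb; obtain ⟨a, h⟩ := hb; exact ⟨a, h.symm⟩
  have F1mem : ∀ p, p ∈ S₁ → p ∈ E₁ → p ∈ F₁ := fun p h1 h2 => hF₁ ▸ mem_EL h2 h1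
  have F2ex : ∀ a ∈ F₂, ∃ b, RV E₂ (W₁ ∪ H₁ ∪ E₂) S₂ W₂ a b := by
    intro a ha; rw [← hF₂] at ha; exact ha
  have F2mem : ∀ p, p ∈ E₂ → p ∈ S₂ → p ∈ F₂ := fun p h1 h2 => hF₂ ▸ mem_EL h1 h2
  have G2mem : ∀ a b, RV E₂ (W₁ ∪ H₁ ∪ E₂) S₂ W₂ a b → b ∈ G2 := fun a b h => hG2 ▸ ⟨a, h.symm⟩
  rw [ph_ph_of_subset (G1S.trans hH1), ph_ph_of_subset (F1E.trans E1H)] at rB
  rw [ph_ph_of_subset (G1S.trans hH1)] at dB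
  rw [ph_ph_of_subset E1H] at gB
  rw [ph_ph_of_subset (F2E.trans E2H), ph_ph_of_subset (G2S.trans hH2)] at rB'
  rw [ph_ph_of_subset (F2E.trans E2H)] at dB'
  rw [ph_ph_of_subset hH2] at gB'
  rw [ph_ph_of_subset E2H] at gB''
  clear hG1 hF₁ hF₂ hG2
  -- first renaming
  have gR := gB.ren buH geoH (ph E₂ t)
    (raise (fun x => ∃ a ∈ supp (ph E₁ t), MM H₁ (W₁ ∪ H₁) H₂ (W₂ ∪ H₂) a x) a₁ b₁) RH
    Set.subset_union_right (by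
      intro p hp q hpq
      constructor
      · rintro rfl
        unfold raise
        rw [if_neg]
        rintro ⟨a, -, hm⟩
        exact hm.2.2.2.1 hpq.left
      · intro hne
        have hm := hpq.mm hne
        unfold raise
        rw [if_pos ⟨p, hp, hm⟩]
        have h0 := dH p q hm hp
        rcases nB p with h1 | ⟨-, -, -, -, y, hy, hyp, hcl⟩
        · omega
        · exact (clash hcl hm.cl1 (Or.inl (Or.inr hm.2.2.1)) (Or.inr (supp_ph_left _ _ hy))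
            hm.ne.symm hyp).elim)
  have hb₂ : ∀ x, raise (fun x => ∃ a ∈ supp (ph E₁ t), MM H₁ (W₁ ∪ H₁) H₂ (W₂ ∪ H₂) a x) a₁ b₁ x
      = a₁ x ∨ (a₁ x = 0 ∧
        raise (fun x => ∃ a ∈ supp (ph E₁ t), MM H₁ (W₁ ∪ H₁) H₂ (W₂ ∪ H₂) a x) a₁ b₁ x = 1 ∧
        x ∉ S₁ ∧ ∃ y ∈ supp t, y ∈ W₁ ∪ H₁ ∪ E₂ ∧ y ≠ x ∧ Cl x y W₂) := by
    intro x
    unfold raise
    split_ifs with hx
    · obtain ⟨a, ha, hm⟩ := hx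
      by_cases h0 : a₁ x = 0
      · exact Or.inr ⟨h0, by omega, fun h => hm.2.2.2.1 (hH1 h), a, supp_ph_right _ _ ha,
          Or.inl (Or.inr hm.1), hm.ne, hm.cl2.mono fun _ h => Or.inl h⟩
      · left; omega
    · rcases nB x with h1 | ⟨h1, h2, -, h3, y, hy, hyx, hcl⟩
      · exact Or.inl h1
      · exact Or.inr ⟨h1, h2, h3, y, supp_ph_right _ _ hy, Or.inl (Or.inr (supp_ph_left _ _ hy)),
          hyx, hcl.mono fun _ h => Or.inl (Or.inl h)⟩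
  generalize raise (fun x => ∃ a ∈ supp (ph E₁ t), MM H₁ (W₁ ∪ H₁) H₂ (W₂ ∪ H₂) a x) a₁ b₁ = b₂
    at gR hb₂
  generalize hF₁' : img (RV H₁ (W₁ ∪ H₁) H₂ (W₂ ∪ H₂)) F₁ = F₁' at *
  have F1'ex : ∀ b ∈ F₁', ∃ a ∈ F₁, RV H₁ (W₁ ∪ H₁) H₂ (W₂ ∪ H₂) a b := by
    intro b hb; rw [← hF₁'] at hb; exact hb
  have CF1' : ∀ p, p ∈ S₁ → p ∈ S₂ → p ∈ F₁' := fun p h1 h2 =>
    hF₁' ▸ ⟨p, F1mem p h1 (CE1 p (hH1 h1) (hH2 h2)), Or.inl ⟨rfl, hH1 h1, hH2 h2⟩⟩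
  -- Stage C
  have m3 : mu (ph E₂ t) ≤ mu (ph H₂ t) := by
    rw [← ph_ph_of_subset E2H]; exact mu_ph_le _ _
  obtain ⟨rC, dC, b₃, nC, gC⟩ := hD _ (NF_ph E₂ t) (by omega) _ _ _ _ _ _ _ _
    Set.subset_union_right Set.subset_union_right gR gB''
  have bu3 : BU (RV F₁' (W₁ ∪ F₁ ∪ F₁') F₂ (W₂ ∪ F₂)) (F₁' ∩ F₂) :=
    RV_bu Set.subset_union_right Set.subset_union_right
  generalize hJ₁ : EL F₁' (W₁ ∪ F₁ ∪ F₁') F₂ (W₂ ∪ F₂) = J₁ at *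
  generalize hJ₂ : EL F₂ (W₂ ∪ F₂) F₁' (W₁ ∪ F₁ ∪ F₁') = J₂ at *
  have J1F : J₁ ⊆ F₁' := hJ₁ ▸ EL_sub
  have J2F : J₂ ⊆ F₂ := hJ₂ ▸ EL_sub
  have J1ex : ∀ a ∈ J₁, ∃ b, RV F₁' (W₁ ∪ F₁ ∪ F₁') F₂ (W₂ ∪ F₂) a b := by
    intro a ha; rw [← hJ₁] at ha; exact ha
  have J2ex : ∀ b ∈ J₂, ∃ a, RV F₁' (W₁ ∪ F₁ ∪ F₁') F₂ (W₂ ∪ F₂) a b := by
    intro b hb; rw [← hJ₂] at hb; obtain ⟨a, h⟩ := hb; exact ⟨a, h.symm⟩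
  have J2mem : ∀ p, p ∈ F₁' → p ∈ F₂ → p ∈ J₂ := fun p h1 h2 => hJ₂ ▸ mem_EL h2 h1
  rw [ph_ph_of_subset (J2F.trans F2E)] at rC
  rw [ph_ph_of_subset F2E] at gC
  clear hJ₁ hJ₂
  have hb₃ : ∀ x, b₃ x = a₁ x ∨ (a₁ x = 0 ∧ b₃ x = 1 ∧ (x ∈ S₂ → x ∉ S₁) ∧
      ∃ y ∈ supp t, y ∈ W₁ ∪ H₁ ∪ E₂ ∧ y ≠ x ∧ Cl x y W₂) := by
    intro x
    rcases nC x with h1 | ⟨h1, h2, -, h3, y, hy, hyx, hcl⟩
    · rcases hb₂ x with h4 | ⟨h4, h5, h6, h7⟩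
      · left; omega
      · exact Or.inr ⟨h4, by omega, fun _ => h6, h7⟩
    · right
      refine ⟨?_, h2, fun h4 h5 => h3 (CF1' x h5 h4), y, supp_ph_right _ _ hy,
        Or.inr (supp_ph_left _ _ hy), hyx, hcl.mono fun _ h => Or.inl h⟩
      rcases hb₂ x with h4 | ⟨h4, -⟩ <;> omega
  -- second renaming
  have gR' := gC.ren bu2 geo2 (ph G2 t)
    (raise (fun x => ∃ a ∈ supp (ph F₂ t), MM E₂ (W₁ ∪ H₁ ∪ E₂) S₂ W₂ a x) a₁ b₃) rB'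
    Set.subset_union_right (by
      intro p hp q hpq
      constructor
      · rintro rfl
        unfold raise
        rw [if_neg]
        rintro ⟨a, -, hm⟩
        exact hm.2.2.2.1 hpq.left
      · intro hne
        have hm := hpq.mm hne
        unfold raise
        rw [if_pos ⟨p, hp, hm⟩]
        have h0 := dB' p q hm hp
        rcases hb₃ p with h1 | ⟨-, -, -, y, -, hy, hyp, hcl⟩
        · omega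
        · exact (clash hcl hm.cl1 (hs2 hm.2.2.1) hy hm.ne.symm hyp).elim)
  have hb₄ : ∀ x, raise (fun x => ∃ a ∈ supp (ph F₂ t), MM E₂ (W₁ ∪ H₁ ∪ E₂) S₂ W₂ a x) a₁ b₃ x
      = a₁ x ∨ (a₁ x = 0 ∧
        raise (fun x => ∃ a ∈ supp (ph F₂ t), MM E₂ (W₁ ∪ H₁ ∪ E₂) S₂ W₂ a x) a₁ b₃ x = 1 ∧
        (x ∈ S₂ → x ∉ S₁) ∧ ∃ y ∈ supp t, y ∈ W₁ ∪ H₁ ∪ E₂ ∧ y ≠ x ∧ Cl x y W₂) := by
    intro x
    unfold raise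
    split_ifs with hx
    · obtain ⟨a, ha, hm⟩ := hx
      by_cases h0 : a₁ x = 0
      · exact Or.inr ⟨h0, by omega, fun h h' => hm.2.2.2.1 (CE2 x (hH1 h') (hH2 h)), a,
          supp_ph_right _ _ ha, Or.inr hm.1, hm.ne, hm.cl2⟩
      · left; omega
    · exact hb₃ x
  generalize raise (fun x => ∃ a ∈ supp (ph F₂ t), MM E₂ (W₁ ∪ H₁ ∪ E₂) S₂ W₂ a x) a₁ b₃ = b₄
    at gR' hb₄
  have iff2 := img_iff bu2 J₂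
  generalize hK₂ : img (RV E₂ (W₁ ∪ H₁ ∪ E₂) S₂ W₂) J₂ = K₂ at *
  have K2ex : ∀ b ∈ K₂, ∃ a ∈ J₂, RV E₂ (W₁ ∪ H₁ ∪ E₂) S₂ W₂ a b := by
    intro b hb; rw [← hK₂] at hb; exact hb
  have K2G : K₂ ⊆ G2 := fun b hb => by
    obtain ⟨a, -, h⟩ := K2ex b hb; exact G2mem a b h
  have CK2 : S₁ ∩ S₂ ⊆ K₂ := fun p hp => by
    have h2 := CE2 p (hH1 hp.1) (hH2 hp.2)
    exact (iff2 p p (Or.inl ⟨rfl, h2, hp.2⟩)).1 (J2mem p (CF1' p hp.1 hp.2) (F2mem p h2 hp.2))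
  have hY1 : W₁ ⊆ W₁ ∪ F₁ ∪ F₁' := fun _ h => Or.inl (Or.inl h)
  have hY2 : W₂ ⊆ W₂ ∪ F₂ := fun _ h => Or.inl h
  have K2E : K₂ ⊆ EL S₂ W₂ S₁ W₁ := fun b hb => by
    obtain ⟨b'', h1, r4⟩ := K2ex b hb
    obtain ⟨b', r3⟩ := J2ex b'' h1
    obtain ⟨a', h2, r2⟩ := F1'ex b' r3.left
    obtain ⟨a, r1⟩ := F1ex a' h2
    exact ⟨a, (chain_RV hs1 hs2 E2H F2E hY1 hY2 r1 r2 r3 r4).symm⟩
  -- final allowance
  have ahle : ∀ x, a₁ x ≤ ah x := fun x => by rcases nB' x with h | ⟨h, -⟩ <;> omega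
  have b4le : ∀ x, a₁ x ≤ b₄ x := fun x => by rcases hb₄ x with h | ⟨h, -⟩ <;> omega
  have part1 : Good G2 (W₁ ∪ H₁ ∪ E₂ ∪ G2) h₁ (fin S₂ a₁ ah b₄) (ph S₂ t) := by
    have key : ∀ p q, p ∈ {x | ah x = 0 ∧ b₄ x ≠ 0} → q ∈ S₂ → p ≠ q →
        ¬ Cl p q (W₁ ∪ H₁ ∪ E₂ ∪ G2) := by
      rintro p q ⟨h1, h2⟩ hq hne hcl
      have := ahle p
      rcases hb₄ p with h3 | ⟨-, -, -, y, -, hy, hyp, hcl'⟩
      · omega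
      · exact clash hcl' hcl (hs2 hq) (Or.inl hy) hne.symm hyp
    refine (gB'.freeze {x | ah x = 0 ∧ b₄ x ≠ 0} ?_).mono _ _ _ _ (fun _ _ => Iff.rfl) subset_rfl
      Set.subset_union_right le_rfl ?_
    · intro p q hpq hne
      exact ⟨fun hp => key p q hp (supp_ph_left _ _ hpq.mem.2) hne,
        fun hq => key q p hq (supp_ph_left _ _ hpq.mem.1) hne.symm⟩
    · intro b hb
      unfold fin frz
      rw [if_pos (supp_ph_left _ _ hb)]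
      by_cases hY : b ∈ {x | ah x = 0 ∧ b₄ x ≠ 0}
      · rw [if_pos hY]
        have := hY.2
        omega
      · rw [if_neg hY]
        have : ¬ (ah b = 0 ∧ b₄ b ≠ 0) := hY
        omega
  have part2 : Good K₂ (W₁ ∪ K₂) h₁ (fin S₂ a₁ ah b₄) (ph G2 t) := by
    have key : ∀ p, p ∈ {x | b₄ x = 0 ∧ ah x ≠ 0} → p ∉ E₂ := by
      rintro p ⟨h1, h2⟩
      have := b4le p
      rcases nB' p with h3 | ⟨-, -, -, h3, -⟩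
      · omega
      · exact h3
    refine (gR'.freeze {x | b₄ x = 0 ∧ ah x ≠ 0} ?_).mono _ _ _ _ (fun _ _ => Iff.rfl) ?_
      Set.subset_union_right le_rfl ?_
    · intro p q hpq hne
      have := rB'.hasEd hpq
      exact ⟨fun hp => absurd this.1.1 (key p hp), fun hq => absurd this.2.1 (key q hq)⟩
    · rintro z (hz | hz)
      · exact Or.inl (Or.inl (hY1 hz))
      · exact Or.inr hz
    · intro b hb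
      unfold fin frz
      rw [if_pos (G2S (supp_ph_left _ _ hb))]
      by_cases hY : b ∈ {x | b₄ x = 0 ∧ ah x ≠ 0}
      · rw [if_pos hY]
        have := hY.2
        omega
      · rw [if_neg hY]
        have : ¬ (b₄ b = 0 ∧ ah b ≠ 0) := hY
        omega
  have gK : Good K₂ (W₁ ∪ K₂) h₁ (fin S₂ a₁ ah b₄) (ph S₂ t) := by
    refine part1.trans (NF_ph _ _) K2G Set.subset_union_right ?_ ?_
    · rintro z (hz | hz)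
      · exact Or.inl (Or.inl (Or.inl hz))
      · exact Or.inr (K2G hz)
    · rw [ph_ph_of_subset G2S]; exact part2
  obtain ⟨gfin, efin⟩ := canon hs1 hs2 (supp_ph_left S₂ t) CK2 K2E gK
  rw [ph_ph_of_subset EL_sub, ph_ph_of_subset (K2G.trans G2S)] at efin
  -- the composite renaming
  have iffH := img_iff' buH J₁
  generalize hJ₀ : img (fun b a => RV H₁ (W₁ ∪ H₁) H₂ (W₂ ∪ H₂) a b) J₁ = J₀ at *
  have J0ex : ∀ a ∈ J₀, ∃ b ∈ J₁, RV H₁ (W₁ ∪ H₁) H₂ (W₂ ∪ H₂) a b := by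
    intro a ha; rw [← hJ₀] at ha; exact ha
  have J0F : J₀ ⊆ F₁ := fun a ha => by
    obtain ⟨b, hb, h⟩ := J0ex a ha
    obtain ⟨a', h1, h2⟩ := F1'ex b (J1F hb)
    rwa [buH.right _ _ _ h h2]
  have iff1 := img_iff' bu1 J₀
  generalize hK₁ : img (fun b a => RV S₁ W₁ E₁ (W₂ ∪ H₂ ∪ E₁) a b) J₀ = K₁ at *
  have K1ex : ∀ a ∈ K₁, ∃ b ∈ J₀, RV S₁ W₁ E₁ (W₂ ∪ H₂ ∪ E₁) a b := by
    intro a ha; rw [← hK₁] at ha; exact ha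
  have K1G : K₁ ⊆ G1 := fun a ha => by
    obtain ⟨b, -, h⟩ := K1ex a ha; exact G1mem a b h
  have q1 := rB.ph bu1 iff1
  rw [ph_ph_of_subset K1G, ph_ph_of_subset J0F] at q1
  have q2 := RH.ph buH iffH
  rw [ph_ph_of_subset (J0F.trans F1E)] at q2
  have q4 := rB'.ph bu2 iff2
  rw [ph_ph_of_subset J2F, ph_ph_of_subset K2G] at q4
  refine ⟨⟨K₁, fun a ha => ?_, ?_, ?_⟩, fin S₂ a₁ ah b₄, ?_, gfin⟩
  · obtain ⟨a', h1, r1⟩ := K1ex a ha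
    obtain ⟨b', h2, r2⟩ := J0ex a' h1
    obtain ⟨b'', r3⟩ := J1ex b' h2
    obtain ⟨b, r4⟩ := F2ex b'' r3.right
    exact ⟨b, chain_RV hs1 hs2 E2H F2E hY1 hY2 r1 r2 r3 r4⟩
  · rw [efin]
    refine (((q1.comp q2).comp rC).comp q4).mono ?_ ?_
    · rintro a b ⟨b'', ⟨b', ⟨a', r1, r2⟩, r3⟩, r4⟩
      exact chain_RV hs1 hs2 E2H F2E hY1 hY2 r1 r2 r3 r4
    · intro p hp
      exact ⟨hp.1.1.1.1, hp.2.2⟩
  · intro a b hm ha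
    obtain ⟨a', ha', r1⟩ := q1.supp_left bu1 a ha
    obtain ⟨b', hb', r2⟩ := q2.supp_left buH a' ha'
    obtain ⟨b'', hb'', r3⟩ := rC.supp_left bu3 b' hb'
    obtain ⟨c, hc, r4⟩ := q4.supp_left bu2 b'' hb''
    rcases chain hs1 hs2 E2H F2E hY1 hY2 r1 r2 r3 r4 with rfl | ⟨m, -⟩ | ⟨rfl, m, -⟩ |
      ⟨rfl, m, -⟩ | ⟨rfl, m⟩
    · exact absurd r4.right hm.2.1
    · exact dB a a' m (supp_ph_mono K1G t ha)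
    · exact dH a b' m (supp_ph_mono (J0F.trans F1E) t ha')
    · have := dC a b'' m hb'
      rcases hb₂ a with h | ⟨h, -⟩ <;> omega
    · exact dB' a c m (supp_ph_mono J2F t hb'')
  · intro x
    unfold fin
    by_cases hx : x ∈ S₂
    · rw [if_pos hx]
      rcases nB' x with h1 | ⟨h1, h2, -, h3, y, hy, hyx, hcl⟩
      · rcases hb₄ x with h4 | ⟨h4, h5, h6, y, hy, -, hyx, hcl⟩
        · left; omega
        · exact Or.inr ⟨h4, by omega, hx, h6 hx, y, hy, hyx, hcl⟩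
      · right
        refine ⟨h1, ?_, hx, fun h => h3 (CE2 x (hH1 h) (hH2 hx)), y, supp_ph_right _ _ hy, hyx, hcl⟩
        rcases hb₄ x with h4 | ⟨-, h4, -⟩ <;> omega
    · left; rw [if_neg hx]

theorem dia_lt (N : ℕ) : ∀ t : T P, NF t → mu t < N → Dia t := by
  induction N with
  | zero => intro t _ h; omega
  | succ N ih =>
    intro t hn hm
    cases t with
    | e => exact dia_e
    | v p => exact dia_v p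
    | ed p q => exact dia_ed p q
    | n s r =>
      refine dia_of_weak fun S₁ W₁ h₁ a₁ S₂ W₂ h₂ a₂ hs1 hs2 g1 g2 => ?_
      rcases g1.inv_n hn with h1 | ⟨H₁, a₁₁, a₁₂, hH1, pr1, st11, st12, g1s, g1r, g1T⟩
      · exact weak_refl1 hs1 hs2 h1
      rcases g2.inv_n hn with h2 | ⟨H₂, a₂₁, a₂₂, hH2, pr2, st21, st22, g2s, g2r, g2T⟩
      · exact weak_refl2 hn hs1 hs2 g1 h2
      exact weak_node N ih hn (by omega) hs1 hs2 hH1 pr1 st11 st12 g1s g1r g1T hH2 pr2 st21 st22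
        g2s g2r g2T

/-- Main combinatorial theorem: products of good normal forms are good. -/
theorem good_mul {s r : T P} (hr : NF r) {S : Set P} {h : ℕ}
    (g1 : Good S S (h + 1) (fun _ => 0) s) (g2 : Good S S (h + 1) (fun _ => 0) r) :
    Good S S h (fun _ => 0) (mul s r) :=
  two (mu s + 1) (dia_lt _) hr (by omega) subset_rfl (fun _ => ⟨id, by omega⟩)
    (fun _ => ⟨id, by omega⟩) g1 g2

end Pool.Agent.H410Z.RL
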