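import Pool.Agent.H410Z.RL.Term

set_option autoImplicit false

namespace Pool.Agent.H410Z.RL

/-- A level and a component for every point. -/
class Lab (P : Type) where
  I : Type
  lev : P → ℕ
  comp : P → I

open Lab

variable {P : Type} [MetricSpace P] [Lab P]

/-- adjacency -/
def adj (p q : P) : Prop :=
  p ≠ q ∧ comp p = comp q ∧ lev p ≤ lev q + 1 ∧ lev q ≤ lev p + 1

omit [MetricSpace P] in
lemma adj.symm {p q : P} (h : adj p q) : adj q p := ⟨h.1.symm, h.2.1.symm, h.2.2.2, h.2.2.1⟩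

/-- `q` is closer to `p` than every other point of `W`. -/
def Cl (p q : P) (W : Set P) : Prop := ∀ z ∈ W, z ≠ p → dist p q < dist p z

omit [Lab P] in
lemma Cl.mono {p q : P} {W W' : Set P} (h : Cl p q W) (hW : W' ⊆ W) : Cl p q W' :=
  fun z hz => h z (hW hz)

omit [Lab P] in
lemma Cl.not_mem {p q : P} {W : Set P} (h : Cl p q W) (hne : p ≠ q) : q ∉ W :=
  fun hq => lt_irrefl _ (h q hq hne.symm)

/-- no point of `W` lies in the component of `p` -/
def Far (p : P) (W : Set P) : Prop := ∀ z ∈ W, comp z ≠ comp p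

omit [MetricSpace P] in
lemma Far.mono {p : P} {W W' : Set P} (h : Far p W) (hW : W' ⊆ W) : Far p W' :=
  fun z hz => h z (hW hz)

omit [MetricSpace P] in
lemma Far.not_mem {p : P} {W : Set P} (h : Far p W) : p ∉ W := fun hp => h p hp rfl

/-- allowed change of the allowance function when passing to a factor -/
def Step (a a' : P → ℕ) : Prop := ∀ b, (1 ≤ a b → 1 ≤ a' b) ∧ a' b ≤ a b + 1

/-- `Good S W h a t`: the term `t` degenerates to `ph S t`. -/
inductive Good : Set P → Set P → ℕ → (P → ℕ) → T P → Prop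
  | refl {S W : Set P} {h : ℕ} {a : P → ℕ} {t : T P} : supp t ⊆ S → Good S W h a t
  | deg {S W : Set P} {h : ℕ} {a : P → ℕ} {t : T P} (c y : P) : IsEdge t c y → c ∈ S → adj c y →
      Cl c y W → a c = 0 → Good S W h a t
  | killV {S W : Set P} {h : ℕ} {a : P → ℕ} (p : P) : Far p W → h ≤ lev p + a p →
      Good S W h a (.v p)
  | killE {S W : Set P} {h : ℕ} {a : P → ℕ} {t : T P} (p q : P) : IsEdge t p q → Far p W →
      Far q W → h ≤ max (lev p) (lev q) → Good S W h a t
  | node {S W : Set P} {h : ℕ} {a : P → ℕ} {s r : T P} (H : Set P) (a₁ a₂ : P → ℕ) : S ⊆ H →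
      Step a a₁ → Step a a₂ → Good H (W ∪ H) (h + 1) a₁ s → Good H (W ∪ H) (h + 1) a₂ r →
      Good S W h a (mul (ph H s) (ph H r)) → Good S W h a (.n s r)

open Classical in
/-- new allowance for a factor in `Good.mono` -/
noncomputable def shiftA (X : Set P) (d : ℕ) (a' aj : P → ℕ) (b : P) : ℕ :=
  if b ∈ X then (if 1 ≤ a' b then max 1 (aj b - d) else aj b - d) else a' b

theorem Good.mono {S W : Set P} {h : ℕ} {a : P → ℕ} {t : T P} (hg : Good S W h a t) :
    ∀ (S' W' : Set P) (h' : ℕ) (a' : P → ℕ), (∀ p ∈ supp t, p ∈ S ↔ p ∈ S') → W' ⊆ W → S' ⊆ W →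
      h' ≤ h → (∀ b ∈ supp t, (1 ≤ a' b → 1 ≤ a b) ∧ h' + a b ≤ h + a' b) →
      Good S' W' h' a' t := by
  induction hg with
  | refl hs =>
    intro S' W' h' a' h1 _ _ _ _
    exact Good.refl fun p hp => (h1 p hp).1 (hs hp)
  | deg c y he hc hadj hcl ha =>
    intro S' W' h' a' h1 h2 _ _ h5
    refine Good.deg c y he ((h1 c he.left_mem).1 hc) hadj (hcl.mono h2) ?_
    have := (h5 c he.left_mem).1
    omega
  | killV p hf hl =>
    intro S' W' h' a' _ h2 _ _ h5
    refine Good.killV p (hf.mono h2) ?_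
    have := (h5 p (by simp [supp])).2
    omega
  | killE p q he hf hf' hl =>
    intro S' W' h' a' _ h2 _ h4 _
    exact Good.killE p q he (hf.mono h2) (hf'.mono h2) (h4.trans hl)
  | @node S W h a s r H a₁ a₂ hSH st1 st2 _ _ _ ih1 ih2 ih3 =>
    intro S' W' h' a' h1 h2 h3 h4 h5
    have key : ∀ p ∈ supp (T.n s r), p ∈ H ↔ p ∈ (H ∩ supp (T.n s r)) ∪ S' := by
      intro p hp
      constructor
      · intro hH; exact Or.inl ⟨hH, hp⟩
      · rintro (hH | hH)
        · exact hH.1
        · exact hSH ((h1 p hp).2 hH)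
    have sub1 : (H ∩ supp (T.n s r)) ∪ S' ⊆ W ∪ H := by
      rintro p (hp | hp)
      · exact Or.inr hp.1
      · exact Or.inl (h3 hp)
    have sub2 : W' ∪ ((H ∩ supp (T.n s r)) ∪ S') ⊆ W ∪ H :=
      Set.union_subset (fun p hp => Or.inl (h2 hp)) sub1
    have stp : ∀ aj, Step a aj → Step a' (shiftA (supp (T.n s r)) (h - h') a' aj) := by
      intro aj st b
      unfold shiftA
      by_cases hb : b ∈ supp (T.n s r)
      · have := h5 b hb
        have := st b
        rw [if_pos hb]
        split_ifs <;> omega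
      · rw [if_neg hb]; omega
    have cnd : ∀ aj, Step a aj → ∀ b ∈ supp (T.n s r),
        (1 ≤ shiftA (supp (T.n s r)) (h - h') a' aj b → 1 ≤ aj b) ∧
          h' + 1 + aj b ≤ h + 1 + shiftA (supp (T.n s r)) (h - h') a' aj b := by
      intro aj st b hb
      unfold shiftA
      have := h5 b hb
      have := st b
      rw [if_pos hb]
      split_ifs <;> omega
    have e1 : ph ((H ∩ supp (T.n s r)) ∪ S') s = ph H s :=
      (ph_congr fun p hp => key p (Or.inl hp)).symm
    have e2 : ph ((H ∩ supp (T.n s r)) ∪ S') r = ph H r :=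
      (ph_congr fun p hp => key p (Or.inr hp)).symm
    have hsub : supp (mul (ph H s) (ph H r)) ⊆ supp (T.n s r) := supp_ph_right H (T.n s r)
    refine Good.node ((H ∩ supp (T.n s r)) ∪ S') _ _ Set.subset_union_right (stp a₁ st1)
      (stp a₂ st2) ?_ ?_ ?_
    · exact ih1 _ _ _ _ (fun p hp => key p (Or.inl hp)) sub2 sub1 (by omega)
        fun b hb => cnd a₁ st1 b (Or.inl hb)
    · exact ih2 _ _ _ _ (fun p hp => key p (Or.inr hp)) sub2 sub1 (by omega)
        fun b hb => cnd a₂ st2 b (Or.inr hb)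
    · rw [e1, e2]
      exact ih3 _ _ _ _ (fun p hp => h1 p (hsub hp)) h2 h3 h4 fun b hb => h5 b (hsub hb)

theorem Good.monoW {S W W' : Set P} {h : ℕ} {a : P → ℕ} {t : T P} (hg : Good S W h a t)
    (hS : S ⊆ W) (hW : W' ⊆ W) : Good S W' h a t :=
  hg.mono S W' h a (fun _ _ => Iff.rfl) hW hS le_rfl fun _ _ => ⟨id, le_rfl⟩

/-- dropping one level -/
theorem Good.drop {S W : Set P} {h : ℕ} {a a' : P → ℕ} {t : T P} (hg : Good S W (h + 1) a' t)
    (hS : S ⊆ W) (st : Step a a') : Good S W h a t :=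
  hg.mono S W h a (fun _ _ => Iff.rfl) subset_rfl hS (by omega) fun b _ =>
    ⟨(st b).1, by have := (st b).2; omega⟩

theorem Good.inv_v {S W : Set P} {h : ℕ} {a : P → ℕ} {p : P} (hg : Good S W h a (.v p)) :
    p ∈ S ∨ (Far p W ∧ h ≤ lev p + a p) := by
  generalize ht : T.v p = t at hg
  cases hg with
  | refl hs => subst ht; exact Or.inl (hs (by simp [supp]))
  | deg c y he => subst ht; rcases he with he | he <;> cases he
  | killV p' hf hl => cases ht; exact Or.inr ⟨hf, hl⟩
  | killE p' q he => subst ht; rcases he with he | he <;> cases he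
  | node => cases ht

theorem Good.inv_ed {S W : Set P} {h : ℕ} {a : P → ℕ} {p q : P} (hg : Good S W h a (.ed p q)) :
    supp (T.ed p q) ⊆ S ∨
      (∃ c y, IsEdge (T.ed p q) c y ∧ c ∈ S ∧ adj c y ∧ Cl c y W ∧ a c = 0) ∨
      (Far p W ∧ Far q W ∧ h ≤ max (lev p) (lev q)) := by
  generalize ht : T.ed p q = t at hg
  cases hg with
  | refl hs => exact Or.inl hs
  | deg c y he hc hadj hcl ha => exact Or.inr (Or.inl ⟨c, y, he, hc, hadj, hcl, ha⟩)
  | killV p' hf hl => cases ht
  | killE p' q' he hf hf' hl =>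
    subst ht
    right; right
    rcases he with he | he <;> injection he with h1 h2 <;> subst h1 <;> subst h2
    · exact ⟨hf, hf', hl⟩
    · exact ⟨hf', hf, by rw [max_comm]; exact hl⟩
  | node => cases ht

/-- inversion at a product, with progress -/
theorem Good.inv_n {S W : Set P} {h : ℕ} {a : P → ℕ} {s r : T P} (hn : NF (.n s r))
    (hg : Good S W h a (.n s r)) :
    supp (T.n s r) ⊆ S ∨ ∃ (H : Set P) (a₁ a₂ : P → ℕ), S ⊆ H ∧ ¬ supp (T.n s r) ⊆ H ∧
      Step a a₁ ∧ Step a a₂ ∧ Good H (W ∪ H) (h + 1) a₁ s ∧ Good H (W ∪ H) (h + 1) a₂ r ∧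
      Good S W h a (ph H (.n s r)) := by
  generalize ht : T.n s r = t at hg
  induction hg with
  | refl hs => exact Or.inl hs
  | deg c y he => subst ht; rcases he with he | he <;> cases he
  | killV p' hf hl => cases ht
  | killE p' q he => subst ht; rcases he with he | he <;> cases he
  | @node S W h a s' r' H a₁ a₂ hSH st1 st2 g1 g2 g3 _ _ ih3 =>
    injection ht with h1 h2
    subst h1; subst h2
    by_cases hs : supp (T.n s r) ⊆ H
    · have e : mul (ph H s) (ph H r) = T.n s r := ph_self hn hs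
      rw [e] at ih3
      exact ih3 rfl
    · exact Or.inr ⟨H, a₁, a₂, hSH, hs, st1, st2, g1, g2, g3⟩

/-- transitivity -/
theorem Good.trans {H W₁ : Set P} {h : ℕ} {a : P → ℕ} {t : T P} (hg : Good H W₁ h a t) :
    ∀ {S W : Set P}, NF t → S ⊆ H → H ⊆ W₁ → W ⊆ W₁ → Good S W h a (ph H t) →
      Good S W h a t := by
  induction hg with
  | refl hs =>
    intro S W hn _ _ _ g
    rwa [ph_self hn hs] at g
  | deg c y he hc hadj hcl ha =>
    intro S W hn h1 h2 h3 g
    rw [he.ph_left hc fun hy => hcl.not_mem hadj.1 (h2 hy)] at g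
    rcases g.inv_v with hcS | ⟨hf, hl⟩
    · exact Good.deg c y he hcS hadj (hcl.mono h3) ha
    · refine Good.killE c y he hf (fun z hz => ?_) (by omega)
      rw [← hadj.2.1]; exact hf z hz
  | killV p hf hl =>
    intro S W _ _ _ h3 _
    exact Good.killV p (hf.mono h3) hl
  | killE p q he hf hf' hl =>
    intro S W _ _ _ h3 _
    exact Good.killE p q he (hf.mono h3) (hf'.mono h3) hl
  | @node H W₁ h a s r H' a₁ a₂ hSH st1 st2 g1 g2 _ _ _ ih3 =>
    intro S W hn h1 h2 h3 g
    refine Good.node H' a₁ a₂ (h1.trans hSH) st1 st2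
      (g1.monoW Set.subset_union_right (Set.union_subset_union_left _ h3))
      (g2.monoW Set.subset_union_right (Set.union_subset_union_left _ h3)) ?_
    refine ih3 (NF_ph H' (.n s r)) h1 h2 h3 ?_
    rw [← ph_n, ph_ph_of_subset hSH]
    exact g

/-- no edge of `t` can degenerate to a point of `Y` -/
def NoDeg (Y W : Set P) (t : T P) : Prop :=
  ∀ p q, HasEd t p q → p ≠ q → (p ∈ Y → ¬ Cl p q W) ∧ (q ∈ Y → ¬ Cl q p W)

open Classical in
/-- freezing -/
noncomputable def frz (Y : Set P) (a : P → ℕ) (b : P) : ℕ := if b ∈ Y then max (a b) 1 else a b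

theorem Good.freeze {S W : Set P} {h : ℕ} {a : P → ℕ} {t : T P} (hg : Good S W h a t)
    (Y : Set P) : NoDeg Y W t → Good S W h (frz Y a) t := by
  induction hg with
  | refl hs => intro _; exact Good.refl hs
  | deg c y he hc hadj hcl ha =>
    intro hY
    refine Good.deg c y he hc hadj hcl ?_
    have : c ∉ Y := by
      intro hcY
      rcases he.hasEd with h1 | h1
      · exact (hY c y h1 hadj.1).1 hcY hcl
      · exact (hY y c h1 hadj.1.symm).2 hcY hcl
    unfold frz; rw [if_neg this]; exact ha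
  | killV p hf hl =>
    intro _
    refine Good.killV p hf ?_
    unfold frz; split_ifs <;> omega
  | killE p q he hf hf' hl => intro _; exact Good.killE p q he hf hf' hl
  | @node S W h a s r H a₁ a₂ hSH st1 st2 _ _ _ ih1 ih2 ih3 =>
    intro hY
    have stp : ∀ aj, Step a aj → Step (frz Y a) (frz Y aj) := by
      intro aj st b
      have := st b
      unfold frz; split_ifs <;> omega
    have up : ∀ u : T P, (∀ p q, HasEd u p q → HasEd (T.n s r) p q) → NoDeg Y (W ∪ H) u := by
      intro u hu p q hpq hne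
      have := hY p q (hu p q hpq) hne
      exact ⟨fun h1 h2 => this.1 h1 (h2.mono Set.subset_union_left),
        fun h1 h2 => this.2 h1 (h2.mono Set.subset_union_left)⟩
    refine Good.node H _ _ hSH (stp a₁ st1) (stp a₂ st2) (ih1 (up s fun p q h => Or.inl h))
      (ih2 (up r fun p q h => Or.inr h)) (ih3 fun p q hpq => hY p q ?_)
    exact HasEd_ph (S := H) (t := .n s r) hpq

variable [IsUltrametricDist P]

omit [Lab P] in
lemma dist_eq_of_lt {x y z : P} (h : dist x y < dist x z) : dist y z = dist x z := by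
  have h1 := IsUltrametricDist.dist_triangle_max y x z
  have h2 := IsUltrametricDist.dist_triangle_max x y z
  rw [dist_comm y x] at h1
  apply le_antisymm
  · exact h1.trans (max_le h.le le_rfl)
  · rcases le_max_iff.1 h2 with h3 | h3
    · exact absurd h (not_lt.2 h3)
    · exact h3

/-- Points shadowed by a blocker can be made visible. -/
theorem Good.addB {K W : Set P} {h : ℕ} {a : P → ℕ} {x : T P} (hg : Good K W h a x)
    (B : Set P) : K ⊆ W →
      (∀ b ∈ B, ∃ a₀ ∈ W, a₀ ≠ b ∧ comp a₀ = comp b ∧ Cl b a₀ (supp x)) →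
      Good (K ∪ B) (W ∪ B) h a x ∧ ph (K ∪ B) x = ph K x := by
  induction hg with
  | refl hs =>
    intro _ _
    exact ⟨Good.refl (hs.trans Set.subset_union_left),
      ph_congr fun p hp => ⟨fun _ => hs hp, fun h => Or.inl h⟩⟩
  | @deg K W h a t c y he hc hadj hcl ha =>
    intro hK hB
    have hcl' : Cl c y (W ∪ B) := by
      rintro z (hz | hz) hzc
      · exact hcl z hz hzc
      · obtain ⟨a₀, h1, h2, h3, h4⟩ := hB z hz
        have h5 := h4 c he.left_mem hzc.symm
        have h6 : a₀ ≠ c := by rintro rfl; exact lt_irrefl _ h5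
        have h7 := dist_eq_of_lt h5
        have h8 := hcl a₀ h1 h6
        rw [dist_comm c a₀, h7, dist_comm z c] at h8
        exact h8
    have hy := hcl'.not_mem hadj.1
    refine ⟨Good.deg c y he (Or.inl hc) hadj hcl' ha, ?_⟩
    rw [he.ph_left (Or.inl hc) (fun h => hy (h.elim (fun h => Or.inl (hK h)) Or.inr)),
      he.ph_left hc fun h => hy (Or.inl (hK h))]
  | @killV K W h a p hf hl =>
    intro hK hB
    have hf' : Far p (W ∪ B) := by
      rintro z (hz | hz)
      · exact hf z hz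
      · obtain ⟨a₀, h1, h2, h3, h4⟩ := hB z hz
        rw [← h3]; exact hf a₀ h1
    have hp := hf'.not_mem
    refine ⟨Good.killV p hf' hl, ?_⟩
    rw [ph_v_not (fun h => hp (h.elim (fun h => Or.inl (hK h)) Or.inr)),
      ph_v_not fun h => hp (Or.inl (hK h))]
  | @killE K W h a t p q he hf hf' hl =>
    intro hK hB
    have far : ∀ p, Far p W → Far p (W ∪ B) := by
      rintro p hf z (hz | hz)
      · exact hf z hz
      · obtain ⟨a₀, h1, h2, h3, h4⟩ := hB z hz
        rw [← h3]; exact hf a₀ h1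
    have hp := (far p hf).not_mem
    have hq := (far q hf').not_mem
    refine ⟨Good.killE p q he (far p hf) (far q hf') hl, ?_⟩
    rw [he.ph_none (fun h => hp (h.elim (fun h => Or.inl (hK h)) Or.inr))
      (fun h => hq (h.elim (fun h => Or.inl (hK h)) Or.inr)),
      he.ph_none (fun h => hp (Or.inl (hK h))) fun h => hq (Or.inl (hK h))]
  | @node K W h a s r H a₁ a₂ hSH st1 st2 _ _ _ ih1 ih2 ih3 =>
    intro hK hB
    have up : ∀ u : T P, supp u ⊆ supp (T.n s r) → ∀ W' : Set P, W ⊆ W' →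
        ∀ b ∈ B, ∃ a₀ ∈ W', a₀ ≠ b ∧ comp a₀ = comp b ∧ Cl b a₀ (supp u) := by
      intro u hu W' hW b hb
      obtain ⟨a₀, h1, h2, h3, h4⟩ := hB b hb
      exact ⟨a₀, hW h1, h2, h3, h4.mono hu⟩
    obtain ⟨g1, e1⟩ := ih1 Set.subset_union_right
      (up s Set.subset_union_left _ Set.subset_union_left)
    obtain ⟨g2, e2⟩ := ih2 Set.subset_union_right
      (up r Set.subset_union_right _ Set.subset_union_left)
    obtain ⟨g3, e3⟩ := ih3 hK (up _ (supp_ph_right H (T.n s r)) _ subset_rfl)
    have hset : W ∪ B ∪ (H ∪ B) = W ∪ H ∪ B := by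
      ext z; simp only [Set.mem_union]; tauto
    constructor
    · refine Good.node (H ∪ B) a₁ a₂ (Set.union_subset_union_left _ hSH) st1 st2 ?_ ?_ ?_
      · rw [hset]; exact g1
      · rw [hset]; exact g2
      · rw [e1, e2]; exact g3
    · rw [← ph_ph_of_subset (Set.union_subset_union_left B hSH), ph_n (H ∪ B), e1, e2, e3,
        ← ph_n, ph_ph_of_subset hSH]

end Pool.Agent.H410Z.RL
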