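import Pool.Agent.H410Z.RL.Top

set_option autoImplicit false

namespace Pool.Agent.H410Z.RL

open Lab Set Topology

instance fact2 : Fact (Nat.Prime 2) := ⟨Nat.prime_two⟩

/-- the base space -/
abbrev K : Type := ℚ_[2]

lemma singleton_meagre (x : K) : IsMeagre ({x} : Set K) := by
  refine IsNowhereDense.isMeagre ?_
  rw [IsNowhereDense, closure_singleton, interior_singleton]

lemma uncountable_K : Uncountable K := by
  rw [← not_countable_iff]
  intro h
  apply not_isMeagre_of_isOpen (isOpen_univ (X := K)) univ_nonempty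
  rw [← iUnion_singleton_eq_range (id : K → K) |>.trans range_id]
  exact isMeagre_iUnion fun x => singleton_meagre x

lemma exists_subspace : ∃ (ι : Type) (_ : Uncountable ι) (V : Submodule ℚ K) (g : ι × ℕ → K),
    ¬ IsMeagre (V : Set K) ∧ (1 : K) ∈ V ∧ ∀ z z', g z - g z' ∈ V → z = z' := by
  classical
  let b := Module.Basis.ofVectorSpace ℚ K
  let ι : Type := Module.Basis.ofVectorSpaceIndex ℚ K
  have hι : Uncountable ι := by
    rw [← not_countable_iff]
    intro h
    have := uncountable_K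
    exact not_countable (α := K) (b.repr.injective.countable)
  obtain ⟨e⟩ : Nonempty (ι × ℕ ≃ ι) := by
    rw [← Cardinal.eq]
    simp only [Cardinal.mk_prod, Cardinal.lift_id, Cardinal.mk_nat, Cardinal.lift_aleph0,
      Cardinal.lift_uzero]
    exact Cardinal.mul_eq_left (Cardinal.aleph0_le_mk ι) (Cardinal.aleph0_le_mk ι)
      Cardinal.aleph0_ne_zero
  let V : ℕ → Submodule ℚ K := fun n =>
    { carrier := {x | ∀ j : ι, n < (e.symm j).2 → b.repr x j = 0}
      add_mem' := fun {x y} hx hy j hj => by simp [hx j hj, hy j hj]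
      zero_mem' := fun j _ => by simp
      smul_mem' := fun c x hx j hj => by simp [hx j hj] }
  have hmono : ∀ m n, m ≤ n → V m ≤ V n := fun m n h x hx j hj => hx j (h.trans_lt hj)
  have hall : ∀ x : K, ∃ n, x ∈ V n := by
    intro x
    obtain ⟨n, hn⟩ := ((b.repr x).support.finite_toSet.image fun j => (e.symm j).2).bddAbove
    refine ⟨n, fun j hj => ?_⟩
    by_contra h
    have : (e.symm j).2 ≤ n := hn ⟨j, Finsupp.mem_support_iff.2 h, rfl⟩
    omega
  obtain ⟨n, hn⟩ : ∃ n, ¬ IsMeagre (V n : Set K) := by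
    by_contra h
    push Not at h
    exact not_isMeagre_of_isOpen (isOpen_univ (X := K)) univ_nonempty
      ((isMeagre_iUnion h).mono fun x _ => mem_iUnion.2 (hall x))
  obtain ⟨m, hm⟩ := hall 1
  refine ⟨ι, hι, V (max n m), fun z => b (e (e z, max n m + 1)),
    fun h => hn (h.mono (hmono _ _ (le_max_left _ _))), hmono _ _ (le_max_right _ _) hm,
    fun z z' h => ?_⟩
  by_contra hne
  have h1 := h (e (e z, max n m + 1)) (by simp)
  have h2 : e (e z', max n m + 1) ≠ e (e z, max n m + 1) := by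
    intro h'
    have := e.injective h'
    exact hne (e.injective (Prod.mk.inj this).1).symm
  simp [Finsupp.single_apply, h2] at h1

theorem exists_lab : ∃ L : Lab K, Uncountable (@I K L) ∧ @Rich K _ L := by
  classical
  obtain ⟨ι, hι, V, g, h1, h2, h3⟩ := exists_subspace
  let L : K → ι × ℕ := fun x => Classical.epsilon fun z => x - g z ∈ V
  have hL : ∀ x z, x - g z ∈ V → L x = z := by
    intro x z h
    have h' : x - g (L x) ∈ V := Classical.epsilon_spec (p := fun z => x - g z ∈ V) ⟨z, h⟩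
    refine h3 _ _ ?_
    have := V.sub_mem h h'
    rwa [sub_sub_sub_cancel_left] at this
  refine ⟨⟨ι, fun x => (L x).2, fun x => (L x).1⟩, hι, fun i l U hU hne hm => h1 ?_⟩
  have hq : ∀ q : ℚ, IsMeagre ((fun x : K => x + (g (i, l) - q)) ⁻¹'
      ({x : K | (L x).1 = i ∧ (L x).2 = l} ∩ U)) := fun q =>
    IsMeagre.preimage_of_isOpenMap (continuous_id.add continuous_const) (isOpenMap_add_right _) hm
  refine (isMeagre_iUnion hq).mono fun x hx => ?_
  obtain ⟨u, hu⟩ := hne
  obtain ⟨q, hq'⟩ := (Padic.denseRange_ratCast 2).exists_mem_open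
    (s := (fun y : K => x + (g (i, l) - y)) ⁻¹' U)
    (hU.preimage (continuous_const.add (continuous_const.sub continuous_id)))
    ⟨x + g (i, l) - u, by
      have e0 : x + (g (i, l) - (x + g (i, l) - u)) = u := by ring
      simpa only [mem_preimage, e0] using hu⟩
  refine mem_iUnion.2 ⟨q, ?_, hq'⟩
  have : L (x + (g (i, l) - q)) = (i, l) := by
    refine hL _ _ ?_
    have e1 : x + (g (i, l) - q) - g (i, l) = x - q • (1 : K) := by
      rw [Rat.smul_one_eq_cast]; ring
    rw [e1]
    exact V.sub_mem hx (V.smul_mem q h2)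
  simp only [mem_ofPred_eq, this, and_self]

theorem exists_seq : ∃ u : ℕ → K, ∀ (p : K) (ε : ℝ), 0 < ε → ∃ n, u n ≠ p ∧ dist p (u n) < ε := by
  obtain ⟨f, hf⟩ := exists_surjective_nat ℚ
  refine ⟨fun n => (f n : K), fun p ε hε => ?_⟩
  have hne : (Metric.ball p ε \ {p}).Nonempty := by
    by_contra h
    rw [not_nonempty_iff_eq_empty, sdiff_eq_empty] at h
    exact not_isMeagre_of_isOpen Metric.isOpen_ball ⟨p, Metric.mem_ball_self hε⟩
      ((singleton_meagre p).mono h)
  obtain ⟨q, hq⟩ := (Padic.denseRange_ratCast 2).exists_mem_open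
    (Metric.isOpen_ball.sdiff isClosed_singleton) hne
  obtain ⟨n, rfl⟩ := hf q
  exact ⟨n, hq.2, by rw [dist_comm]; exact hq.1⟩

/-- The example. -/
theorem example_space : ∃ (X : Type) (_ : TopologicalSpace X), T3Space X ∧
    (∃ (φ : (X × X) ≃ₜ (X × X)) (e : X),
      (∀ p : X × X, (φ p).1 = p.1) ∧ ∀ x : X, φ (x, x) = (x, e)) ∧
    (∀ x : X, ∃ U : ℕ → Set X, (∀ n, IsOpen (U n)) ∧ ⋂ n, U n = {x}) ∧
    (∀ (Y : Type) [TopologicalSpace Y] [TopologicalSpace.MetrizableSpace Y] (f : X → Y),
      Continuous f → ¬ Function.Injective f) ∧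
    ¬ CompletelyRegularSpace X := by
  obtain ⟨L, h1, h2⟩ := exists_lab
  obtain ⟨u, hu⟩ := exists_seq
  exact ⟨G K, top, inferInstance, rectifiable, gdelta u hu, not_submetrizable h2,
    not_completelyRegular h2⟩

end Pool.Agent.H410Z.RL
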