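import Pool.Agent.H410Z.RL.Good

set_option autoImplicit false

namespace Pool.Agent.H410Z.RL

open Lab

variable {P : Type}

/-- Renaming of vertices along `R`; edges have both ends in `C` and are kept. -/
inductive Ren (R : P → P → Prop) (C : Set P) : T P → T P → Prop
  | e : Ren R C .e .e
  | v {a b : P} : R a b → Ren R C (.v a) (.v b)
  | ed {p q : P} : p ∈ C → q ∈ C → Ren R C (.ed p q) (.ed p q)
  | n {s r s' r' : T P} : Ren R C s s' → Ren R C r r' → Ren R C (.n s r) (.n s' r')

/-- `R` is a one-to-one relation fixing `C`. -/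
structure BU (R : P → P → Prop) (C : Set P) : Prop where
  left : ∀ a b b', R a b → R a b' → b = b'
  right : ∀ a a' b, R a b → R a' b → a = a'
  refl : ∀ p ∈ C, R p p

lemma BU.symm {R : P → P → Prop} {C : Set P} (h : BU R C) : BU (fun b a => R a b) C :=
  ⟨fun a b b' h1 h2 => h.right b b' a h1 h2, fun a a' b h1 h2 => h.left b a a' h1 h2, h.refl⟩

lemma Ren.symm {R : P → P → Prop} {C : Set P} {x y : T P} (h : Ren R C x y) :
    Ren (fun b a => R a b) C y x := by
  induction h with
  | e => exact Ren.e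
  | v h => exact Ren.v h
  | ed h1 h2 => exact Ren.ed h1 h2
  | n _ _ ih1 ih2 => exact Ren.n ih1 ih2

lemma Ren.mono {R R' : P → P → Prop} {C C' : Set P} {x y : T P} (h : Ren R C x y)
    (hR : ∀ a b, R a b → R' a b) (hC : C ⊆ C') : Ren R' C' x y := by
  induction h with
  | e => exact Ren.e
  | v h => exact Ren.v (hR _ _ h)
  | ed h1 h2 => exact Ren.ed (hC h1) (hC h2)
  | n _ _ ih1 ih2 => exact Ren.n ih1 ih2

lemma Ren.func {R : P → P → Prop} {C : Set P} (bu : BU R C) {x y : T P} (h : Ren R C x y) :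
    ∀ {y'}, Ren R C x y' → y = y' := by
  induction h with
  | e => intro y' h'; cases h'; rfl
  | v h => intro y' h'; cases h' with | v h' => rw [bu.left _ _ _ h h']
  | ed h1 h2 => intro y' h'; cases h'; rfl
  | n _ _ ih1 ih2 => intro y' h'; cases h' with | n h1 h2 => rw [ih1 h1, ih2 h2]

lemma Ren.inj {R : P → P → Prop} {C : Set P} (bu : BU R C) {x x' y : T P} (h : Ren R C x y)
    (h' : Ren R C x' y) : x = x' := Ren.func bu.symm h.symm h'.symm

lemma Ren.mul {R : P → P → Prop} {C : Set P} (bu : BU R C) {s r s' r' : T P} (hs : Ren R C s s')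
    (hr : Ren R C r r') : Ren R C (mul s r) (mul s' r') := by
  rcases mul_cases s r with ⟨h0, h⟩ | ⟨h0, h⟩ | ⟨u, h0, h⟩ | ⟨h1, h2, h3, h⟩
  · subst h0; cases hr; rw [h, mul_e]; exact hs
  · subst h0; rw [h, Ren.func bu hs hr, mul_self]; exact Ren.e
  · subst h0
    cases hr with
    | n h1 h2 => rw [h, ← Ren.func bu hs h1, mul_n]; exact h2
  · rw [h, mul_norm]
    · exact Ren.n hs hr
    · rintro rfl; cases hr; exact h1 rfl
    · rintro rfl; exact h2 (Ren.inj bu hs hr)
    · rintro u rfl
      cases hr with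
      | n h4 h5 => exact h3 _ (by rw [Ren.inj bu hs h4])

lemma Ren.ph {R : P → P → Prop} {C : Set P} (bu : BU R C) {x y : T P} (h : Ren R C x y)
    {H H' : Set P} (hH : ∀ a b, R a b → (a ∈ H ↔ b ∈ H')) : Ren R C (ph H x) (ph H' y) := by
  induction h with
  | e => exact Ren.e
  | @v a b h =>
    by_cases ha : a ∈ H
    · rw [ph_v_mem ha, ph_v_mem ((hH a b h).1 ha)]; exact Ren.v h
    · rw [ph_v_not ha, ph_v_not (mt (hH a b h).2 ha)]; exact Ren.e
  | @ed p q h1 h2 =>
    have e1 := hH p p (bu.refl p h1)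
    have e2 := hH q q (bu.refl q h2)
    by_cases hp : p ∈ H <;> by_cases hq : q ∈ H
    · simp only [RL.ph, hp, hq, e1.1 hp, e2.1 hq, if_true]; exact Ren.ed h1 h2
    · simp only [RL.ph, hp, hq, e1.1 hp, mt e2.2 hq, if_true, if_false]
      exact Ren.v (bu.refl p h1)
    · simp only [RL.ph, hp, hq, mt e1.2 hp, e2.1 hq, if_true, if_false]
      exact Ren.v (bu.refl q h2)
    · simp only [RL.ph, hp, hq, mt e1.2 hp, mt e2.2 hq, if_false]; exact Ren.e
  | n _ _ ih1 ih2 => exact Ren.mul bu ih1 ih2

lemma Ren.comp {R R' : P → P → Prop} {C C' : Set P} {x y : T P} (h : Ren R C x y) :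
    ∀ {z}, Ren R' C' y z → Ren (fun a c => ∃ b, R a b ∧ R' b c) (C ∩ C') x z := by
  induction h with
  | e => intro z h'; cases h'; exact Ren.e
  | v h => intro z h'; cases h' with | v h' => exact Ren.v ⟨_, h, h'⟩
  | ed h1 h2 => intro z h'; cases h' with | ed h3 h4 => exact Ren.ed ⟨h1, h3⟩ ⟨h2, h4⟩
  | n _ _ ih1 ih2 => intro z h'; cases h' with | n h1 h2 => exact Ren.n (ih1 h1) (ih2 h2)

lemma Ren.mu_eq {R : P → P → Prop} {C : Set P} {x y : T P} (h : Ren R C x y) : mu x = mu y := by
  induction h with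
  | e => rfl
  | v h => rfl
  | ed h1 h2 => rfl
  | n _ _ ih1 ih2 => simp only [mu, ih1, ih2]

lemma Ren.supp_left {R : P → P → Prop} {C : Set P} (bu : BU R C) {x y : T P} (h : Ren R C x y) :
    ∀ a ∈ supp x, ∃ b ∈ supp y, R a b := by
  induction h with
  | e => intro a ha; exact ha.elim
  | v h => intro a ha; cases ha; exact ⟨_, rfl, h⟩
  | ed h1 h2 =>
    intro a ha
    refine ⟨a, ha, bu.refl a ?_⟩
    rcases ha with rfl | rfl
    · exact h1
    · exact h2
  | n _ _ ih1 ih2 =>
    rintro a (ha | ha)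
    · obtain ⟨b, hb, h⟩ := ih1 a ha; exact ⟨b, Or.inl hb, h⟩
    · obtain ⟨b, hb, h⟩ := ih2 a ha; exact ⟨b, Or.inr hb, h⟩

lemma Ren.supp_right {R : P → P → Prop} {C : Set P} (bu : BU R C) {x y : T P}
    (h : Ren R C x y) : ∀ b ∈ supp y, ∃ a ∈ supp x, R a b := h.symm.supp_left bu.symm

lemma Ren.supp_of {R : P → P → Prop} {C : Set P} (bu : BU R C) {x y : T P}
    (h : Ren R C x y) {a b : P} (ha : a ∈ supp x) (hab : R a b) : b ∈ supp y := by
  obtain ⟨b', hb, h'⟩ := h.supp_left bu a ha
  rwa [bu.left _ _ _ hab h']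

lemma Ren.hasEd {R : P → P → Prop} {C : Set P} {x y : T P} (h : Ren R C x y) {p q : P} :
    HasEd y p q → p ∈ C ∧ q ∈ C := by
  induction h with
  | e => intro h; exact h.elim
  | v h => intro h; exact h.elim
  | ed h1 h2 => rintro ⟨rfl, rfl⟩; exact ⟨h1, h2⟩
  | n _ _ ih1 ih2 => rintro (h | h); exacts [ih1 h, ih2 h]

lemma Ren.refl_of {R : P → P → Prop} {C : Set P} (hR : ∀ p ∈ C, R p p) {t : T P}
    (h : supp t ⊆ C) : Ren R C t t := by
  induction t with
  | e => exact Ren.e
  | v p => exact Ren.v (hR p (h rfl))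
  | ed p q => exact Ren.ed (h (by simp [supp])) (h (by simp [supp]))
  | n s r ihs ihr => exact Ren.n (ihs fun p hp => h (Or.inl hp)) (ihr fun p hp => h (Or.inr hp))

/-- image of a set -/
def img (R : P → P → Prop) (F : Set P) : Set P := {b | ∃ a ∈ F, R a b}

lemma img_iff {R : P → P → Prop} {C : Set P} (bu : BU R C) (H : Set P) :
    ∀ a b, R a b → (a ∈ H ↔ b ∈ img R H) := by
  intro a b h
  constructor
  · intro ha; exact ⟨a, ha, h⟩
  · rintro ⟨a', ha, h'⟩; rwa [bu.right _ _ _ h h']

lemma img_iff' {R : P → P → Prop} {C : Set P} (bu : BU R C) (H : Set P) :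
    ∀ a b, R a b → (a ∈ img (fun b a => R a b) H ↔ b ∈ H) :=
  fun a b h => (img_iff bu.symm H b a h).symm

variable [MetricSpace P] [Lab P]

/-- moved points are neighbours, seen at the same distance from `C` -/
def Geo (R : P → P → Prop) (C : Set P) : Prop :=
  ∀ a b, R a b → a ≠ b → comp a = comp b ∧ lev a ≤ lev b + 1 ∧ ∀ p ∈ C, dist p a = dist p b

open Classical in
/-- allowance after renaming -/
noncomputable def renA (R : P → P → Prop) (X : Set P) (a' aj : P → ℕ) (q : P) : ℕ :=
  if h : ∃ p, p ∈ X ∧ R p q then (if h.choose = q then aj h.choose else aj h.choose + 1) else a' q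

theorem Good.ren {R : P → P → Prop} {C : Set P} (bu : BU R C) (geo : Geo R C)
    {F W : Set P} {h : ℕ} {a : P → ℕ} {x : T P} (hg : Good F W h a x) :
    ∀ (y : T P) (a' : P → ℕ), Ren R C x y → F ⊆ W →
      (∀ p ∈ supp x, ∀ q, R p q → (p = q → a' q = a p) ∧ (p ≠ q → a p + 1 ≤ a' q)) →
      Good (img R F) (W ∪ img R F) h a' y := by
  have far : ∀ {F W : Set P} {p q : P}, F ⊆ W → R p q → Far p W → Far q (W ∪ img R F) := by
    intro F W p q hF hpq hf
    have e : comp p = comp q := by
      by_cases h : p = q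
      · rw [h]
      · exact (geo p q hpq h).1
    rintro z (hz | ⟨z', hz, hzz⟩)
    · rw [← e]; exact hf z hz
    · have e' : comp z' = comp z := by
        by_cases h : z' = z
        · rw [h]
        · exact (geo z' z hzz h).1
      rw [← e, ← e']; exact hf z' (hF hz)
  induction hg with
  | @refl F W h a t hs =>
    intro y a' hr _ _
    refine Good.refl fun b hb => ?_
    obtain ⟨a, ha, h⟩ := hr.supp_right bu b hb
    exact ⟨a, hs ha, h⟩
  | @deg F W h a t c y he hc hadj hcl ha =>
    intro y' a' hr hF hA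
    have hC : c ∈ C ∧ y' = t := by
      rcases he with rfl | rfl <;> cases hr with
      | ed h1 h2 => exact ⟨by assumption, rfl⟩
    obtain ⟨hcC, rfl⟩ := hC
    have hcc := bu.refl c hcC
    refine Good.deg c y he ⟨c, hc, hcc⟩ hadj ?_ ?_
    · rintro z (hz | ⟨z', hz, hzz⟩) hzc
      · exact hcl z hz hzc
      · by_cases h : z' = z
        · subst h; exact hcl z' (hF hz) hzc
        · rw [← (geo z' z hzz h).2.2 c hcC]
          refine hcl z' (hF hz) ?_
          rintro rfl
          exact hzc (bu.left _ _ _ hzz hcc)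
    · rw [(hA c he.left_mem c hcc).1 rfl, ha]
  | @killV F W h a p hf hl =>
    intro y a' hr hF hA
    cases hr with
    | @v _ q hpq =>
      refine Good.killV q (far hF hpq hf) ?_
      have h1 := hA p rfl q hpq
      by_cases h : p = q
      · subst h; rw [h1.1 rfl]; exact hl
      · have := h1.2 h
        have := (geo p q hpq h).2.1
        omega
  | @killE F W h a t p q he hf hf' hl =>
    intro y' a' hr hF hA
    have hC : p ∈ C ∧ q ∈ C ∧ y' = t := by
      rcases he with rfl | rfl <;> cases hr with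
      | ed h1 h2 => exact ⟨by assumption, by assumption, rfl⟩
    obtain ⟨hp, hq, rfl⟩ := hC
    exact Good.killE p q he (far hF (bu.refl p hp) hf) (far hF (bu.refl q hq) hf') hl
  | @node F W h a s r H a₁ a₂ hSH st1 st2 _ _ _ ih1 ih2 ih3 =>
    intro y a' hr hF hA
    have hr' := hr
    cases hr with
    | @n _ _ s' r' hs hr =>
      have stp : ∀ aj, Step a aj → Step a' (renA R (supp (T.n s r)) a' aj) := by
        intro aj st q
        unfold renA
        by_cases hq : ∃ p, p ∈ supp (T.n s r) ∧ R p q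
        · rw [dif_pos hq]
          have h1 := hq.choose_spec
          have h2 := hA _ h1.1 q h1.2
          have h3 := st hq.choose
          split_ifs with h4
          · have := h2.1 h4; omega
          · have := h2.2 h4; omega
        · rw [dif_neg hq]; omega
      have cnd : ∀ aj : P → ℕ, ∀ p ∈ supp (T.n s r), ∀ q, R p q →
          (p = q → renA R (supp (T.n s r)) a' aj q = aj p) ∧
          (p ≠ q → aj p + 1 ≤ renA R (supp (T.n s r)) a' aj q) := by
        intro aj p hp q hpq
        have hq : ∃ p, p ∈ supp (T.n s r) ∧ R p q := ⟨p, hp, hpq⟩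
        have h1 : hq.choose = p := bu.right _ _ _ hq.choose_spec.2 hpq
        unfold renA
        rw [dif_pos hq, h1]
        constructor
        · intro h; rw [if_pos h]
        · intro h; rw [if_neg h]
      have hFH : img R F ⊆ img R H := fun b ⟨a, ha, h⟩ => ⟨a, hSH ha, h⟩
      have sub : W ∪ img R F ∪ img R H ⊆ W ∪ H ∪ img R H := by
        rintro z ((hz | hz) | hz)
        · exact Or.inl (Or.inl hz)
        · exact Or.inr (hFH hz)
        · exact Or.inr hz
      refine Good.node (img R H) _ _ hFH (stp a₁ st1) (stp a₂ st2) ?_ ?_ ?_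
      · exact (ih1 s' _ hs Set.subset_union_right fun p hp => cnd a₁ p (Or.inl hp)).monoW
          Set.subset_union_right sub
      · exact (ih2 r' _ hr Set.subset_union_right fun p hp => cnd a₂ p (Or.inr hp)).monoW
          Set.subset_union_right sub
      · exact ih3 _ a' (hr'.ph bu (img_iff bu H)) hF
          fun p hp => hA p (supp_ph_right H (T.n s r) hp)

end Pool.Agent.H410Z.RL
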