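import Mathlib

set_option autoImplicit false

namespace Pool.Agent.H410Z.RL

/-- Raw terms: the unit, vertices, edges and products. -/
inductive T (P : Type) : Type
  | e : T P
  | v : P → T P
  | ed : P → P → T P
  | n : T P → T P → T P

variable {P : Type}

open Classical in
/-- The product of the free involutive left loop on normal forms. -/
noncomputable def mul (s r : T P) : T P :=
  if r = .e then s else if s = r then .e else
    match r with
    | .n s' u => if s' = s then u else .n s r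
    | _ => .n s r

/-- size -/
def mu : T P → ℕ
  | .e => 0
  | .v _ => 1
  | .ed _ _ => 2
  | .n s r => mu s + mu r + 1

lemma ne_n_left (s u : T P) : s ≠ .n s u := by
  intro h
  have := congrArg mu h
  simp only [mu] at this
  omega

lemma mul_e (s : T P) : mul s .e = s := by simp [mul]

lemma mul_self (s : T P) : mul s s = .e := by
  by_cases h : s = .e
  · subst h; simp [mul]
  · simp [mul, h]

lemma mul_n (s u : T P) : mul s (.n s u) = u := by
  simp [mul, ne_n_left]

lemma mul_norm {s r : T P} (h1 : r ≠ .e) (h2 : s ≠ r) (h3 : ∀ u, r ≠ .n s u) :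
    mul s r = .n s r := by
  unfold mul
  rw [if_neg h1, if_neg h2]
  cases r with
  | n s' u =>
    have : s' ≠ s := by
      rintro rfl
      exact h3 u rfl
    simp [this]
  | _ => rfl

lemma mul_cases (s r : T P) :
    (r = .e ∧ mul s r = s) ∨ (s = r ∧ mul s r = .e) ∨ (∃ u, r = .n s u ∧ mul s r = u) ∨
      (r ≠ .e ∧ s ≠ r ∧ (∀ u, r ≠ .n s u) ∧ mul s r = .n s r) := by
  by_cases h1 : r = .e
  · left; subst h1; exact ⟨rfl, mul_e s⟩
  by_cases h2 : s = r
  · right; left; subst h2; exact ⟨rfl, mul_self s⟩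
  by_cases h3 : ∃ u, r = .n s u
  · right; right; left
    obtain ⟨u, rfl⟩ := h3
    exact ⟨u, rfl, mul_n s u⟩
  · right; right; right
    have h3' : ∀ u, r ≠ .n s u := fun u hu => h3 ⟨u, hu⟩
    exact ⟨h1, h2, h3', mul_norm h1 h2 h3'⟩

/-- normal forms -/
def NF : T P → Prop
  | .e => True
  | .v _ => True
  | .ed _ _ => True
  | .n s r => NF s ∧ NF r ∧ r ≠ .e ∧ s ≠ r ∧ ∀ u, r ≠ .n s u

lemma NF_mul {s r : T P} (hs : NF s) (hr : NF r) : NF (mul s r) := by
  rcases mul_cases s r with ⟨-, h⟩ | ⟨-, h⟩ | ⟨u, rfl, h⟩ | ⟨h1, h2, h3, h⟩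
  · rw [h]; exact hs
  · rw [h]; trivial
  · rw [h]; exact hr.2.1
  · rw [h]; exact ⟨hs, hr, h1, h2, h3⟩

lemma NF.mul_eq {s r : T P} (h : NF (.n s r)) : mul s r = .n s r :=
  mul_norm h.2.2.1 h.2.2.2.1 h.2.2.2.2

lemma mul_mul {s r : T P} (hr : NF r) : mul s (mul s r) = r := by
  rcases mul_cases s r with ⟨h0, h⟩ | ⟨h0, h⟩ | ⟨u, rfl, h⟩ | ⟨h1, h2, h3, h⟩
  · rw [h, mul_self, h0]
  · rw [h, mul_e, h0]
  · rw [h]; exact hr.mul_eq
  · rw [h, mul_n]

lemma mu_mul (s r : T P) : mu (mul s r) ≤ mu s + mu r + 1 := by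
  rcases mul_cases s r with ⟨h0, h⟩ | ⟨h0, h⟩ | ⟨u, rfl, h⟩ | ⟨h1, h2, h3, h⟩
  · rw [h]; omega
  · rw [h]; simp [mu]
  · rw [h]; simp only [mu]; omega
  · rw [h]; simp [mu]

/-- support -/
def supp : T P → Set P
  | .e => ∅
  | .v p => {p}
  | .ed p q => {p, q}
  | .n s r => supp s ∪ supp r

lemma supp_finite (t : T P) : (supp t).Finite := by
  induction t with
  | e => simp [supp]
  | v p => simp [supp]
  | ed p q => simp [supp]
  | n s r ihs ihr => exact ihs.union ihr

lemma supp_mul (s r : T P) : supp (mul s r) ⊆ supp s ∪ supp r := by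
  rcases mul_cases s r with ⟨h0, h⟩ | ⟨h0, h⟩ | ⟨u, rfl, h⟩ | ⟨h1, h2, h3, h⟩
  · rw [h]; exact Set.subset_union_left
  · rw [h]; simp [supp]
  · rw [h]; intro x hx; right; right; exact hx
  · rw [h]; rfl

/-- the edge `ed p q` occurs -/
def HasEd : T P → P → P → Prop
  | .e, _, _ => False
  | .v _, _, _ => False
  | .ed p' q', p, q => p' = p ∧ q' = q
  | .n s r, p, q => HasEd s p q ∨ HasEd r p q

lemma HasEd.mem {t : T P} {p q : P} (h : HasEd t p q) : p ∈ supp t ∧ q ∈ supp t := by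
  induction t with
  | e => exact h.elim
  | v p => exact h.elim
  | ed p' q' => obtain ⟨rfl, rfl⟩ := h; simp [supp]
  | n s r ihs ihr =>
    rcases h with h | h
    · exact ⟨Or.inl (ihs h).1, Or.inl (ihs h).2⟩
    · exact ⟨Or.inr (ihr h).1, Or.inr (ihr h).2⟩

lemma HasEd_mul {s r : T P} {p q : P} (hh : HasEd (mul s r) p q) : HasEd s p q ∨ HasEd r p q := by
  rcases mul_cases s r with ⟨h0, h⟩ | ⟨h0, h⟩ | ⟨u, rfl, h⟩ | ⟨h1, h2, h3, h⟩
  · rw [h] at hh; exact Or.inl hh
  · rw [h] at hh; exact hh.elim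
  · rw [h] at hh; exact Or.inr (Or.inr hh)
  · rw [h] at hh; exact hh

open Classical in
/-- The retraction keeping the points of `S`. -/
noncomputable def ph (S : Set P) : T P → T P
  | .e => .e
  | .v p => if p ∈ S then .v p else .e
  | .ed p q => if p ∈ S then (if q ∈ S then .ed p q else .v p) else (if q ∈ S then .v q else .e)
  | .n s r => mul (ph S s) (ph S r)

lemma NF_ph (S : Set P) (t : T P) : NF (ph S t) := by
  induction t with
  | e => trivial
  | v p => unfold ph; split_ifs <;> trivial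
  | ed p q => unfold ph; split_ifs <;> trivial
  | n s r ihs ihr => exact NF_mul ihs ihr

lemma ph_n (S : Set P) (s r : T P) : ph S (.n s r) = mul (ph S s) (ph S r) := rfl

lemma ph_mul (S : Set P) (s r : T P) : ph S (mul s r) = mul (ph S s) (ph S r) := by
  rcases mul_cases s r with ⟨h0, h⟩ | ⟨h0, h⟩ | ⟨u, rfl, h⟩ | ⟨h1, h2, h3, h⟩
  · rw [h, h0]; exact (mul_e _).symm
  · rw [h, h0]; exact (mul_self _).symm
  · rw [h, ph_n, mul_mul (NF_ph _ _)]
  · rw [h]; rfl

lemma ph_ph (S H : Set P) (t : T P) : ph S (ph H t) = ph (S ∩ H) t := by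
  induction t with
  | e => rfl
  | v p =>
    by_cases h1 : p ∈ S <;> by_cases h2 : p ∈ H <;> simp [ph, h1, h2]
  | ed p q =>
    by_cases h1 : p ∈ S <;> by_cases h2 : p ∈ H <;> by_cases h3 : q ∈ S <;>
      by_cases h4 : q ∈ H <;> simp [ph, h1, h2, h3, h4]
  | n s r ihs ihr => rw [ph_n, ph_mul, ihs, ihr, ph_n]

lemma ph_ph_of_subset {S H : Set P} (h : S ⊆ H) (t : T P) : ph S (ph H t) = ph S t := by
  rw [ph_ph, Set.inter_eq_left.2 h]

lemma ph_congr {S S' : Set P} {t : T P} (h : ∀ p ∈ supp t, p ∈ S ↔ p ∈ S') :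
    ph S t = ph S' t := by
  induction t with
  | e => rfl
  | v p =>
    have h1 := h p (by simp [supp])
    by_cases h3 : p ∈ S
    · simp [ph, h3, h1.1 h3]
    · simp [ph, h3, mt h1.2 h3]
  | ed p q =>
    have h1 := h p (by simp [supp])
    have h2 := h q (by simp [supp])
    by_cases h3 : p ∈ S <;> by_cases h4 : q ∈ S
    · simp [ph, h3, h4, h1.1 h3, h2.1 h4]
    · simp [ph, h3, h4, h1.1 h3, mt h2.2 h4]
    · simp [ph, h3, h4, mt h1.2 h3, h2.1 h4]
    · simp [ph, h3, h4, mt h1.2 h3, mt h2.2 h4]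
  | n s r ihs ihr =>
    rw [ph_n, ph_n, ihs fun p hp => h p (Or.inl hp), ihr fun p hp => h p (Or.inr hp)]

lemma ph_self {S : Set P} {t : T P} (hn : NF t) (h : supp t ⊆ S) : ph S t = t := by
  induction t with
  | e => rfl
  | v p =>
    have : p ∈ S := h (by simp [supp])
    simp [ph, this]
  | ed p q =>
    have h1 : p ∈ S := h (by simp [supp])
    have h2 : q ∈ S := h (by simp [supp])
    simp [ph, h1, h2]
  | n s r ihs ihr =>
    rw [ph_n, ihs hn.1 fun p hp => h (Or.inl hp), ihr hn.2.1 fun p hp => h (Or.inr hp)]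
    exact hn.mul_eq

lemma supp_ph (S : Set P) (t : T P) : supp (ph S t) ⊆ S ∩ supp t := by
  induction t with
  | e => simp [ph, supp]
  | v p => by_cases h1 : p ∈ S <;> simp [ph, supp, h1]
  | ed p q =>
    by_cases h1 : p ∈ S <;> by_cases h2 : q ∈ S <;> simp [ph, supp, h1, h2, Set.insert_subset_iff]
  | n s r ihs ihr =>
    intro x hx
    rcases supp_mul _ _ hx with hx | hx
    · exact ⟨(ihs hx).1, Or.inl (ihs hx).2⟩
    · exact ⟨(ihr hx).1, Or.inr (ihr hx).2⟩

lemma supp_ph_left (S : Set P) (t : T P) : supp (ph S t) ⊆ S := fun _ hx => (supp_ph S t hx).1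
lemma supp_ph_right (S : Set P) (t : T P) : supp (ph S t) ⊆ supp t :=
  fun _ hx => (supp_ph S t hx).2

lemma supp_ph_mono {S H : Set P} (h : S ⊆ H) (t : T P) : supp (ph S t) ⊆ supp (ph H t) := by
  rw [← ph_ph_of_subset h]; exact supp_ph_right _ _

lemma HasEd_ph {S : Set P} {t : T P} {p q : P} (hh : HasEd (ph S t) p q) : HasEd t p q := by
  induction t with
  | e => exact hh
  | v p => unfold ph at hh; split_ifs at hh <;> exact hh.elim
  | ed p' q' =>
    unfold ph at hh
    split_ifs at hh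
    · exact hh
    all_goals exact hh.elim
  | n s r ihs ihr =>
    rcases HasEd_mul hh with h | h
    · exact Or.inl (ihs h)
    · exact Or.inr (ihr h)

lemma mu_ph_le (S : Set P) (t : T P) : mu (ph S t) ≤ mu t := by
  induction t with
  | e => exact le_rfl
  | v p => unfold ph; split_ifs <;> simp [mu]
  | ed p q => unfold ph; split_ifs <;> simp [mu]
  | n s r ihs ihr =>
    have := mu_mul (ph S s) (ph S r)
    rw [ph_n]; simp only [mu]; omega

lemma mu_ph_lt {S : Set P} {t : T P} (h : ¬ supp t ⊆ S) : mu (ph S t) < mu t := by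
  induction t with
  | e => simp [supp] at h
  | v p =>
    have : p ∉ S := by simpa [supp] using h
    simp [ph, this, mu]
  | ed p q =>
    by_cases h1 : p ∈ S <;> by_cases h2 : q ∈ S
    · exact absurd (by simp [supp, Set.insert_subset_iff, h1, h2]) h
    all_goals simp [ph, h1, h2, mu]
  | n s r ihs ihr =>
    have := mu_mul (ph S s) (ph S r)
    have h1 := mu_ph_le S s
    have h2 := mu_ph_le S r
    rw [ph_n]; simp only [mu]
    by_cases hs : supp s ⊆ S
    · have hr : ¬ supp r ⊆ S := fun hr => h (Set.union_subset hs hr)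
      have := ihr hr
      omega
    · have := ihs hs
      omega

/-- `t` is an edge with ends `c` and `y`. -/
def IsEdge (t : T P) (c y : P) : Prop := t = .ed c y ∨ t = .ed y c

lemma IsEdge.symm {t : T P} {c y : P} (h : IsEdge t c y) : IsEdge t y c := Or.symm h

lemma IsEdge.supp {t : T P} {c y : P} (h : IsEdge t c y) : supp t = {c, y} := by
  rcases h with rfl | rfl
  · rfl
  · exact Set.pair_comm _ _

lemma IsEdge.left_mem {t : T P} {c y : P} (h : IsEdge t c y) : c ∈ RL.supp t := by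
  rw [h.supp]; simp

lemma IsEdge.right_mem {t : T P} {c y : P} (h : IsEdge t c y) : y ∈ RL.supp t := by
  rw [h.supp]; simp

lemma IsEdge.ph_left {t : T P} {c y : P} (h : IsEdge t c y) {S : Set P} (h1 : c ∈ S)
    (h2 : y ∉ S) : ph S t = .v c := by
  rcases h with rfl | rfl <;> simp [ph, h1, h2]

lemma IsEdge.ph_none {t : T P} {c y : P} (h : IsEdge t c y) {S : Set P} (h1 : c ∉ S)
    (h2 : y ∉ S) : ph S t = .e := by
  rcases h with rfl | rfl <;> simp [ph, h1, h2]

lemma IsEdge.unique {t : T P} {c y c' y' : P} (h : IsEdge t c y) (h' : IsEdge t c' y') :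
    (c = c' ∧ y = y') ∨ (c = y' ∧ y = c') := by
  rcases h with rfl | rfl <;> rcases h' with h' | h' <;> injection h' with h1 h2
  · exact Or.inl ⟨h1, h2⟩
  · exact Or.inr ⟨h1, h2⟩
  · exact Or.inr ⟨h2, h1⟩
  · exact Or.inl ⟨h2, h1⟩

lemma IsEdge.hasEd {t : T P} {c y : P} (h : IsEdge t c y) : HasEd t c y ∨ HasEd t y c := by
  rcases h with rfl | rfl
  · exact Or.inl ⟨rfl, rfl⟩
  · exact Or.inr ⟨rfl, rfl⟩

lemma ph_v_mem {S : Set P} {p : P} (h : p ∈ S) : ph S (.v p) = .v p := by simp [ph, h]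
lemma ph_v_not {S : Set P} {p : P} (h : p ∉ S) : ph S (.v p) = .e := by simp [ph, h]

end Pool.Agent.H410Z.RL
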