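import Pool.Agent.H410Z.RL.Dia

set_option autoImplicit false

namespace Pool.Agent.H410Z.RL

open Lab Set Topology

/-- The free involutive left loop. -/
def G (P : Type) : Type := {t : T P // NF t}

variable {P : Type}

noncomputable def gmul (x y : G P) : G P := ⟨mul x.1 y.1, NF_mul x.2 y.2⟩
def ge : G P := ⟨.e, trivial⟩
def gv (p : P) : G P := ⟨.v p, trivial⟩
def ged (p q : P) : G P := ⟨.ed p q, trivial⟩

lemma gmul_gmul (x y : G P) : gmul x (gmul x y) = y := Subtype.ext (mul_mul y.2)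
lemma gmul_self (x : G P) : gmul x x = ge := Subtype.ext (mul_self x.1)
lemma gmul_ge (x : G P) : gmul x ge = x := Subtype.ext (mul_e x.1)

variable [MetricSpace P] [Lab P]

/-- basic neighbourhoods -/
def Nb (S : Set P) (k : ℕ) (u : G P) : Set (G P) :=
  {t | Good S S k (fun _ => 0) t.1 ∧ ph S t.1 = u.1}

lemma Nb_self {S : Set P} (k : ℕ) {u : G P} (h : supp u.1 ⊆ S) : u ∈ Nb S k u :=
  ⟨Good.refl h, ph_self u.2 h⟩

lemma Nb_trans {S S' : Set P} {k k' : ℕ} {u t : G P} (ht : t ∈ Nb S k u) (hS : S ⊆ S')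
    (hk : k ≤ k') : Nb S' k' t ⊆ Nb S k u := by
  rintro x ⟨h1, h2⟩
  have h3 : Good S' S' k (fun _ => 0) x.1 :=
    h1.mono _ _ _ _ (fun _ _ => Iff.rfl) subset_rfl subset_rfl hk fun _ _ => ⟨id, by omega⟩
  refine ⟨h3.trans x.2 hS subset_rfl hS (by rw [h2]; exact ht.1), ?_⟩
  rw [← ph_ph_of_subset hS, h2]; exact ht.2

lemma Nb_mono {S S' : Set P} {k k' : ℕ} {u : G P} (hu : supp u.1 ⊆ S) (hS : S ⊆ S')
    (hk : k ≤ k') : Nb S' k' u ⊆ Nb S k u := Nb_trans (Nb_self k hu) hS hk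

instance top : TopologicalSpace (G P) where
  IsOpen U := ∀ u ∈ U, ∃ (S : Set P) (k : ℕ), S.Finite ∧ supp u.1 ⊆ S ∧ Nb S k u ⊆ U
  isOpen_univ := fun u _ => ⟨supp u.1, 0, supp_finite _, subset_rfl, subset_univ _⟩
  isOpen_inter := by
    intro U V hU hV u hu
    obtain ⟨S, k, h1, h2, h3⟩ := hU u hu.1
    obtain ⟨S', k', h1', h2', h3'⟩ := hV u hu.2
    exact ⟨S ∪ S', max k k', h1.union h1', h2.trans subset_union_left,
      subset_inter ((Nb_mono h2 subset_union_left (le_max_left _ _)).trans h3)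
        ((Nb_mono h2' subset_union_right (le_max_right _ _)).trans h3')⟩
  isOpen_sUnion := by
    rintro s hs u ⟨U, hU, hu⟩
    obtain ⟨S, k, h1, h2, h3⟩ := hs U hU u hu
    exact ⟨S, k, h1, h2, h3.trans (subset_sUnion_of_mem hU)⟩

lemma isOpen_iff {U : Set (G P)} : IsOpen U ↔
    ∀ u ∈ U, ∃ (S : Set P) (k : ℕ), S.Finite ∧ supp u.1 ⊆ S ∧ Nb S k u ⊆ U := Iff.rfl

lemma isOpen_Nb {S : Set P} (hS : S.Finite) (k : ℕ) (u : G P) : IsOpen (Nb S k u) :=
  fun t ht => ⟨S ∪ supp t.1, k, hS.union (supp_finite _), subset_union_right,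
    Nb_trans ht subset_union_left le_rfl⟩

instance : T2Space (G P) := by
  refine ⟨fun x y hxy => ?_⟩
  have hf : (supp x.1 ∪ supp y.1).Finite := (supp_finite _).union (supp_finite _)
  refine ⟨Nb _ 0 x, Nb _ 0 y, isOpen_Nb hf 0 x, isOpen_Nb hf 0 y, Nb_self 0 subset_union_left,
    Nb_self 0 subset_union_right, ?_⟩
  rw [Set.disjoint_left]
  intro t h1 h2
  exact hxy (Subtype.ext (h1.2.symm.trans h2.2))

/-- countable pseudocharacter: rigidity -/
theorem Good.rigid {S W : Set P} {h : ℕ} {a : P → ℕ} {t : T P} (hg : Good S W h a t) :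
    NF t → (∀ p ∈ supp t, ∀ q ∈ supp t, p ≠ q → ¬ Cl p q W) →
      (∀ p ∈ supp t, lev p + a p < h) → supp t ⊆ S := by
  induction hg with
  | refl hs => intro _ _ _; exact hs
  | deg c y he hc hadj hcl ha =>
    intro _ h1 _
    exact absurd hcl (h1 c he.left_mem y he.right_mem hadj.1)
  | killV p hf hl =>
    intro _ _ h2
    have := h2 p rfl
    omega
  | killE p q he hf hf' hl =>
    intro _ _ h2
    have := h2 p he.left_mem
    have := h2 q he.right_mem
    omega
  | @node S W h a s r H a₁ a₂ hSH st1 st2 _ _ _ ih1 ih2 ih3 =>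
    intro hn h1 h2
    have k1 := ih1 hn.1 (fun p hp q hq hne hc => h1 p (Or.inl hp) q (Or.inl hq) hne
      (hc.mono subset_union_left)) (fun p hp => by
        have := h2 p (Or.inl hp)
        have := (st1 p).2
        omega)
    have k2 := ih2 hn.2.1 (fun p hp q hq hne hc => h1 p (Or.inr hp) q (Or.inr hq) hne
      (hc.mono subset_union_left)) (fun p hp => by
        have := h2 p (Or.inr hp)
        have := (st2 p).2
        omega)
    have e : mul (ph H s) (ph H r) = T.n s r := ph_self hn (union_subset k1 k2)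
    rw [e] at ih3
    exact ih3 hn h1 h2

theorem gdelta (u : ℕ → P) (hu : ∀ (p : P) (ε : ℝ), 0 < ε → ∃ n, u n ≠ p ∧ dist p (u n) < ε)
    (x : G P) : ∃ U : ℕ → Set (G P), (∀ n, IsOpen (U n)) ∧ ⋂ n, U n = {x} := by
  have hf : ∀ n : ℕ, (supp x.1 ∪ u '' Iio n).Finite :=
    fun n => (supp_finite _).union ((finite_Iio n).image u)
  refine ⟨fun n => Nb (supp x.1 ∪ u '' Iio n) n x, fun n => isOpen_Nb (hf n) n x, ?_⟩
  apply Subset.antisymm
  · intro t ht
    rw [mem_iInter] at ht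
    have h1 : ∀ p q : P, ∃ n, p ≠ q → u n ≠ p ∧ dist p (u n) < dist p q := by
      intro p q
      by_cases h : p = q
      · exact ⟨0, fun h' => absurd h h'⟩
      · obtain ⟨n, hn⟩ := hu p (dist p q) (dist_pos.2 h)
        exact ⟨n, fun _ => hn⟩
    choose f hf using h1
    obtain ⟨m₁, hm₁⟩ := (((supp_finite t.1).prod (supp_finite t.1)).image
      fun z : P × P => f z.1 z.2).bddAbove
    obtain ⟨m₂, hm₂⟩ := ((supp_finite t.1).image lev).bddAbove
    obtain ⟨g, e⟩ := ht (max m₁ m₂ + 1)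
    have := g.rigid t.2 (fun p hp q hq hne hc => by
      have h2 : f p q ≤ m₁ := hm₁ ⟨(p, q), ⟨hp, hq⟩, rfl⟩
      have h3 := hc (u (f p q)) (Or.inr ⟨f p q, by simp only [mem_Iio]; omega, rfl⟩) (hf p q hne).1
      exact lt_asymm h3 (hf p q hne).2) (fun p hp => by
        have h2 : lev p ≤ m₂ := hm₂ ⟨p, hp, rfl⟩
        omega)
    rw [ph_self t.2 this] at e
    exact Subtype.ext e
  · rintro _ rfl
    exact mem_iInter.2 fun n => Nb_self n subset_union_left

omit [Lab P] in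
lemma dense_step {A U : Set P} (hU : IsOpen U) (hA : ¬ IsMeagre (A ∩ U)) (r : P → ℝ)
    (hr : ∀ x, 0 < r x) :
    ∃ U' ⊆ U, IsOpen U' ∧ U'.Nonempty ∧ ∃ ε > 0, U' ⊆ closure {x ∈ A | ε < r x} := by
  by_contra hcon
  apply hA
  have e : A ∩ U = ⋃ n : ℕ, ({x ∈ A | 1 / ((n : ℝ) + 1) < r x} ∩ U) := by
    ext x
    simp only [mem_inter_iff, mem_iUnion, mem_ofPred_eq]
    constructor
    · rintro ⟨h1, h2⟩
      obtain ⟨n, hn⟩ := exists_nat_one_div_lt (hr x)
      exact ⟨n, ⟨h1, hn⟩, h2⟩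
    · rintro ⟨n, ⟨h1, -⟩, h2⟩; exact ⟨h1, h2⟩
  rw [e]
  refine isMeagre_iUnion fun n => IsNowhereDense.isMeagre ?_
  by_contra hnd
  rw [IsNowhereDense, ← ne_eq, ← nonempty_iff_ne_empty] at hnd
  obtain ⟨x, hx⟩ := hnd
  obtain ⟨y, hy1, hy2⟩ := mem_closure_iff.1 (interior_subset hx) _ isOpen_interior hx
  exact hcon ⟨interior (closure ({x ∈ A | 1 / ((n : ℝ) + 1) < r x} ∩ U)) ∩ U, inter_subset_right,
    isOpen_interior.inter hU, ⟨y, hy1, hy2.2⟩, _, Nat.one_div_pos_of_nat,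
    fun z hz => closure_mono inter_subset_left (interior_subset hz.1)⟩

/-- every fibre of the labelling is everywhere non-meagre -/
def Rich (P : Type) [MetricSpace P] [Lab P] : Prop :=
  ∀ (i : I P) (l : ℕ) (U : Set P), IsOpen U → U.Nonempty →
    ¬ IsMeagre ({x : P | comp x = i ∧ lev x = l} ∩ U)

lemma chain_exists (hP : Rich P) {B : Set P} (hB : ¬ IsMeagre B) (i : I P) (k : ℕ) (r : P → ℝ)
    (hr : ∀ x, 0 < r x) : ∃ c : ℕ → P, c 0 ∈ B ∧
      (∀ j, 1 ≤ j → j ≤ k → comp (c j) = i ∧ lev (c j) = j) ∧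
      ∀ j ≤ k, ∀ j' ≤ k, dist (c j) (c j') < r (c j) := by
  have key : ∃ U : Set P, IsOpen U ∧ U.Nonempty ∧ ∃ ε > 0, U ⊆ closure {x ∈ B | ε < r x} ∧
      ∀ j, 1 ≤ j → j ≤ k → U ⊆ closure {x ∈ {x : P | comp x = i ∧ lev x = j} | ε < r x} := by
    induction k with
    | zero =>
      obtain ⟨U, -, h1, h2, ε, h3, h4⟩ := dense_step isOpen_univ (by rwa [inter_univ]) r hr
      exact ⟨U, h1, h2, ε, h3, h4, fun j h h' => by omega⟩
    | succ k ih =>
      obtain ⟨U, h1, h2, ε, h3, h4, h5⟩ := ih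
      obtain ⟨U', g0, g1, g2, ε', g3, g4⟩ := dense_step h1 (hP i (k + 1) U h1 h2) r hr
      have mono : ∀ (A : Set P) (δ : ℝ), min ε ε' ≤ δ →
          closure {x ∈ A | δ < r x} ⊆ closure {x ∈ A | min ε ε' < r x} :=
        fun A δ hδ => closure_mono fun x hx => ⟨hx.1, hδ.trans_lt hx.2⟩
      refine ⟨U', g1, g2, min ε ε', lt_min h3 g3,
        (g0.trans h4).trans (mono _ _ (min_le_left _ _)), fun j hj hj' => ?_⟩
      by_cases h : j = k + 1
      · subst h; exact g4.trans (mono _ _ (min_le_right _ _))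
      · exact (g0.trans (h5 j hj (by omega))).trans (mono _ _ (min_le_left _ _))
  obtain ⟨U, h1, ⟨x₀, h2⟩, ε, h3, h4, h5⟩ := key
  have h6 : ∀ j : ℕ, ∃ c : P, j ≤ k → (j = 0 → c ∈ B) ∧ (1 ≤ j → comp c = i ∧ lev c = j) ∧
      ε < r c ∧ dist x₀ c < ε / 2 := by
    intro j
    by_cases hj : j ≤ k
    · by_cases h0 : j = 0
      · obtain ⟨c, hc, hd⟩ := Metric.mem_closure_iff.1 (h4 h2) (ε / 2) (by linarith)
        exact ⟨c, fun _ => ⟨fun _ => hc.1, fun h => by omega, hc.2, hd⟩⟩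
      · obtain ⟨c, hc, hd⟩ := Metric.mem_closure_iff.1 (h5 j (by omega) hj h2) (ε / 2) (by linarith)
        exact ⟨c, fun _ => ⟨fun h => absurd h h0, fun _ => hc.1, hc.2, hd⟩⟩
    · exact ⟨x₀, fun h => absurd h hj⟩
  choose c hc using h6
  refine ⟨c, (hc 0 (Nat.zero_le _)).1 rfl, fun j h h' => (hc j h').2.1 h, fun j hj j' hj' => ?_⟩
  have a1 := (hc j hj).2.2
  have a2 := (hc j' hj').2.2
  have := dist_triangle_left (c j) (c j') x₀
  linarith [a1.1, a1.2, a2.2]

theorem meagre_far (hP : Rich P) {Y : Type} [PseudoMetricSpace Y] {f : G P → Y}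
    (hf : Continuous f) {ε : ℝ} (hε : 0 < ε) {S : Set P} {k : ℕ}
    (hS : ∀ t ∈ Nb S k ge, dist (f t) (f ge) < ε) {i : I P} (hi : ∀ z ∈ S, comp z ≠ i) :
    IsMeagre {x : P | (comp x = i ∧ lev x = 0) ∧ 2 * ε ≤ dist (f (gv x)) (f ge)} := by
  by_contra hB
  have hη : 0 < ε / (2 * (k + 1)) := by positivity
  have h1 : ∀ p : P, ∃ r > 0, ∀ (q : P) (t : G P), IsEdge t.1 p q → adj p q → dist p q < r →
      dist (f t) (f (gv p)) < ε / (2 * (k + 1)) := by
    intro p
    obtain ⟨S', k', g1, g2, g3⟩ := isOpen_iff.1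
      (Metric.isOpen_ball.preimage hf : IsOpen (f ⁻¹' Metric.ball (f (gv p)) (ε / (2 * (k + 1)))))
      (gv p) (Metric.mem_ball_self hη)
    have hp : p ∈ S' := g2 rfl
    obtain ⟨r, hr0, hr⟩ := Metric.isOpen_iff.1 (g1.diff (t := {p})).isClosed.isOpen_compl p
      (fun h => h.2 rfl)
    refine ⟨r, hr0, fun q t he hadj hd => ?_⟩
    have hcl : Cl p q S' := by
      intro z hz hzp
      by_contra hlt
      refine hr (a := z) ?_ ⟨hz, hzp⟩
      rw [Metric.mem_ball, dist_comm]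
      exact (not_lt.1 hlt).trans_lt hd
    exact g3 ⟨Good.deg p q he hp hadj hcl rfl, he.ph_left hp (hcl.not_mem hadj.1)⟩
  choose r hr0 hr using h1
  obtain ⟨c, c0, c1, c2⟩ := chain_exists hP hB i k r hr0
  have c3 : ∀ j ≤ k, comp (c j) = i ∧ lev (c j) = j := by
    intro j hj
    by_cases h : j = 0
    · subst h; exact c0.1
    · exact c1 j (by omega) hj
  have c4 : ∀ j ≤ k, dist (f (gv (c 0))) (f (gv (c j))) ≤ j * (ε / (k + 1)) := by
    intro j
    induction j with
    | zero => intro _; simp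
    | succ j ih =>
      intro hj
      have a1 := c3 j (by omega)
      have a2 := c3 (j + 1) hj
      have hadj : adj (c j) (c (j + 1)) := by
        refine ⟨fun h => ?_, a1.1.trans a2.1.symm, by omega, by omega⟩
        have := a1.2
        rw [h] at this
        omega
      have b1 := hr (c j) (c (j + 1)) (ged (c j) (c (j + 1))) (Or.inl rfl) hadj
        (c2 j (by omega) _ hj)
      have b2 := hr (c (j + 1)) (c j) (ged (c j) (c (j + 1))) (Or.inr rfl) hadj.symm
        (c2 _ hj j (by omega))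
      have b3 := ih (by omega)
      have b4 := dist_triangle (f (gv (c 0))) (f (gv (c j))) (f (gv (c (j + 1))))
      have b5 := dist_triangle_left (f (gv (c j))) (f (gv (c (j + 1)))) (f (ged (c j) (c (j + 1))))
      have b6 : ε / (k + 1) = ε / (2 * (k + 1)) + ε / (2 * (k + 1)) := by field_simp; ring
      push_cast
      linarith
  have hfar : Far (c k) S := fun z hz => by rw [(c3 k le_rfl).1]; exact hi z hz
  have d1 := hS (gv (c k)) ⟨Good.killV (c k) hfar (by rw [(c3 k le_rfl).2]; omega),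
    ph_v_not hfar.not_mem⟩
  have d2 := c4 k le_rfl
  have d3 := dist_triangle (f (gv (c 0))) (f (gv (c k))) (f ge)
  have d4 : (k : ℝ) * (ε / (k + 1)) ≤ ε := by
    rw [← mul_div_assoc, div_le_iff₀ (by positivity)]
    nlinarith
  have d5 := c0.2
  linarith

lemma exists_Nb {Y : Type} [PseudoMetricSpace Y] {f : G P → Y} (hf : Continuous f) {ε : ℝ}
    (hε : 0 < ε) : ∃ (S : Set P) (k : ℕ), S.Finite ∧ ∀ t ∈ Nb S k ge, dist (f t) (f ge) < ε := by
  obtain ⟨S, k, g1, -, g3⟩ := isOpen_iff.1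
    (Metric.isOpen_ball.preimage hf : IsOpen (f ⁻¹' Metric.ball (f ge) ε)) ge
    (Metric.mem_ball_self hε)
  exact ⟨S, k, g1, g3⟩

/-- A continuous map to a metric space identifies the unit with a vertex of level zero. -/
theorem collapse [Nonempty P] [Uncountable (I P)] (hP : Rich P) {Y : Type} [MetricSpace Y]
    {f : G P → Y} (hf : Continuous f) : ∃ x : P, lev x = 0 ∧ f (gv x) = f ge := by
  choose S k hS hk using fun n : ℕ => exists_Nb hf (Nat.one_div_pos_of_nat (α := ℝ) (n := n))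
  have hc : (⋃ n, comp '' S n).Countable :=
    countable_iUnion fun n => ((hS n).image _).countable
  obtain ⟨i, hi⟩ : ∃ i, i ∉ ⋃ n, comp '' S n := by
    by_contra h
    push Not at h
    exact not_countable_univ (hc.mono fun i _ => h i)
  have hm := isMeagre_iUnion fun n : ℕ => meagre_far hP hf Nat.one_div_pos_of_nat (hk n) (i := i)
    fun z hz h => hi (mem_iUnion.2 ⟨n, z, hz, h⟩)
  by_contra hcon
  apply hP i 0 univ isOpen_univ univ_nonempty
  refine hm.mono ?_
  rintro x ⟨hx, -⟩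
  have h0 : 0 < dist (f (gv x)) (f ge) := dist_pos.2 fun h => hcon ⟨x, hx.2, h⟩
  obtain ⟨n, hn⟩ := exists_nat_one_div_lt (half_pos h0)
  exact mem_iUnion.2 ⟨n, hx, by linarith⟩

theorem not_completelyRegular [Nonempty P] [Uncountable (I P)] (hP : Rich P) :
    ¬ CompletelyRegularSpace (G P) := by
  intro h
  obtain ⟨f, hf, h0, h1⟩ := CompletelyRegularSpace.completely_regular (ge : G P)
    (Nb (∅ : Set P) 1 ge)ᶜ (isOpen_Nb finite_empty 1 ge).isClosed_compl
    (fun h => h (Nb_self 1 (by simp [ge, supp])))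
  obtain ⟨x, hx, e⟩ := collapse hP hf
  have : gv x ∈ (Nb (∅ : Set P) 1 ge)ᶜ := by
    rintro ⟨g, -⟩
    rcases Good.inv_v g with h | ⟨-, h⟩
    · exact h
    · omega
  rw [h0, h1 this] at e
  simp at e

theorem collapse' [Nonempty P] [Uncountable (I P)] (hP : Rich P) (Y : Type) [TopologicalSpace Y]
    [TopologicalSpace.MetrizableSpace Y] (f : G P → Y) (hf : Continuous f) :
    ∃ x : P, f (gv x) = f ge := by
  letI := TopologicalSpace.metrizableSpaceMetric Y
  obtain ⟨x, -, hx⟩ := collapse hP hf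
  exact ⟨x, hx⟩

theorem not_submetrizable [Nonempty P] [Uncountable (I P)] (hP : Rich P) (Y : Type)
    [TopologicalSpace Y] [TopologicalSpace.MetrizableSpace Y] (f : G P → Y) (hf : Continuous f) :
    ¬ Function.Injective f := by
  intro h
  obtain ⟨x, hx⟩ := collapse' hP Y f hf
  cases h hx

variable [IsUltrametricDist P]

theorem continuous_gmul : Continuous fun z : G P × G P => gmul z.1 z.2 := by
  refine continuous_def.2 fun U hU => isOpen_prod_iff.2 fun x y hxy => ?_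
  obtain ⟨S, k, h1, h2, h3⟩ := hU _ hxy
  have hf : (S ∪ (supp x.1 ∪ supp y.1)).Finite :=
    h1.union ((supp_finite _).union (supp_finite _))
  refine ⟨Nb _ (k + 1) x, Nb _ (k + 1) y, isOpen_Nb hf _ x, isOpen_Nb hf _ y,
    Nb_self _ fun p hp => Or.inr (Or.inl hp), Nb_self _ fun p hp => Or.inr (Or.inr hp), ?_⟩
  rintro ⟨s, r⟩ ⟨hs, hr⟩
  refine h3 (Nb_mono h2 (subset_union_left (t := supp x.1 ∪ supp y.1)) le_rfl ⟨?_, ?_⟩)
  · exact good_mul r.2 hs.1 hr.1
  · change ph _ (mul s.1 r.1) = mul x.1 y.1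
    rw [ph_mul, hs.2, hr.2]

instance : RegularSpace (G P) := by
  refine RegularSpace.of_exists_mem_nhds_isClosed_subset fun x U hU => ?_
  obtain ⟨V, hV, hVo, hx⟩ := mem_nhds_iff.1 hU
  obtain ⟨A, B, hA, hB, hxA, heB, hAB⟩ := isOpen_prod_iff.1 (hVo.preimage continuous_gmul) x ge
    (by simp only [mem_preimage, gmul_ge]; exact hx)
  refine ⟨closure A, Filter.mem_of_superset (hA.mem_nhds hxA) subset_closure, isClosed_closure,
    fun z hz => ?_⟩
  have hc : Continuous fun s : G P => gmul s z :=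
    continuous_gmul.comp (continuous_id.prodMk continuous_const)
  obtain ⟨s, h1, h2⟩ := mem_closure_iff.1 hz _ (hB.preimage hc)
    (by simp only [mem_preimage, gmul_self]; exact heB)
  have := hAB (mk_mem_prod h2 h1)
  simp only [mem_preimage, gmul_gmul] at this
  exact hV this

instance : T3Space (G P) := {}

/-- the rectification -/
noncomputable def rect : (G P × G P) ≃ₜ (G P × G P) where
  toFun z := (z.1, gmul z.1 z.2)
  invFun z := (z.1, gmul z.1 z.2)
  left_inv z := by simp [gmul_gmul]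
  right_inv z := by simp [gmul_gmul]
  continuous_toFun := continuous_fst.prodMk continuous_gmul
  continuous_invFun := continuous_fst.prodMk continuous_gmul

theorem rectifiable : ∃ (φ : (G P × G P) ≃ₜ (G P × G P)) (e : G P),
    (∀ p : G P × G P, (φ p).1 = p.1) ∧ ∀ x : G P, φ (x, x) = (x, e) :=
  ⟨rect, ge, fun _ => rfl, fun x => Prod.ext rfl (gmul_self x)⟩

end Pool.Agent.H410Z.RL
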