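import Pool.Agent.H410Z.RL.Ren

set_option autoImplicit false

namespace Pool.Agent.H410Z.RL

open Lab

variable {P : Type} [MetricSpace P] [Lab P]

/-- matched pairs of two contexts -/
def MM (S₁ W₁ S₂ W₂ : Set P) (a b : P) : Prop :=
  a ∈ S₁ ∧ a ∉ S₂ ∧ b ∈ S₂ ∧ b ∉ S₁ ∧ adj a b ∧ Cl a b W₁ ∧ Cl b a W₂

/-- the renaming between two contexts -/
def RV (S₁ W₁ S₂ W₂ : Set P) (a b : P) : Prop :=
  (a = b ∧ a ∈ S₁ ∧ a ∈ S₂) ∨ MM S₁ W₁ S₂ W₂ a b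

/-- its domain -/
def EL (S₁ W₁ S₂ W₂ : Set P) : Set P := {a | ∃ b, RV S₁ W₁ S₂ W₂ a b}

lemma MM.symm {S₁ W₁ S₂ W₂ : Set P} {a b : P} (h : MM S₁ W₁ S₂ W₂ a b) : MM S₂ W₂ S₁ W₁ b a :=
  ⟨h.2.2.1, h.2.2.2.1, h.1, h.2.1, h.2.2.2.2.1.symm, h.2.2.2.2.2.2, h.2.2.2.2.2.1⟩

lemma MM.ne {S₁ W₁ S₂ W₂ : Set P} {a b : P} (h : MM S₁ W₁ S₂ W₂ a b) : a ≠ b := h.2.2.2.2.1.1
lemma MM.adj {S₁ W₁ S₂ W₂ : Set P} {a b : P} (h : MM S₁ W₁ S₂ W₂ a b) : adj a b := h.2.2.2.2.1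
lemma MM.cl1 {S₁ W₁ S₂ W₂ : Set P} {a b : P} (h : MM S₁ W₁ S₂ W₂ a b) : Cl a b W₁ :=
  h.2.2.2.2.2.1
lemma MM.cl2 {S₁ W₁ S₂ W₂ : Set P} {a b : P} (h : MM S₁ W₁ S₂ W₂ a b) : Cl b a W₂ :=
  h.2.2.2.2.2.2

lemma MM_of {S₁ W₁ S₂ W₂ : Set P} {a b : P} (h1 : S₁ ⊆ W₁) (h2 : S₂ ⊆ W₂) (ha : a ∈ S₁)
    (hb : b ∈ S₂) (hadj : adj a b) (c1 : Cl a b W₁) (c2 : Cl b a W₂) : MM S₁ W₁ S₂ W₂ a b :=
  ⟨ha, fun h => c2.not_mem hadj.1.symm (h2 h), hb, fun h => c1.not_mem hadj.1 (h1 h), hadj, c1, c2⟩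

lemma RV.symm {S₁ W₁ S₂ W₂ : Set P} {a b : P} (h : RV S₁ W₁ S₂ W₂ a b) : RV S₂ W₂ S₁ W₁ b a := by
  rcases h with ⟨rfl, h1, h2⟩ | h
  · exact Or.inl ⟨rfl, h2, h1⟩
  · exact Or.inr h.symm

lemma RV.left {S₁ W₁ S₂ W₂ : Set P} {a b : P} (h : RV S₁ W₁ S₂ W₂ a b) : a ∈ S₁ := by
  rcases h with ⟨rfl, h1, h2⟩ | h
  · exact h1
  · exact h.1

lemma RV.right {S₁ W₁ S₂ W₂ : Set P} {a b : P} (h : RV S₁ W₁ S₂ W₂ a b) : b ∈ S₂ := h.symm.left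

lemma RV.mm {S₁ W₁ S₂ W₂ : Set P} {a b : P} (h : RV S₁ W₁ S₂ W₂ a b) (hne : a ≠ b) :
    MM S₁ W₁ S₂ W₂ a b := h.elim (fun h => absurd h.1 hne) id

lemma EL_sub {S₁ W₁ S₂ W₂ : Set P} : EL S₁ W₁ S₂ W₂ ⊆ S₁ := fun _ ⟨_, h⟩ => h.left

lemma mem_EL {S₁ W₁ S₂ W₂ : Set P} {p : P} (h1 : p ∈ S₁) (h2 : p ∈ S₂) : p ∈ EL S₁ W₁ S₂ W₂ :=
  ⟨p, Or.inl ⟨rfl, h1, h2⟩⟩

omit [Lab P] in
lemma clash {p q q' : P} {W W' : Set P} (h1 : Cl p q W) (h2 : Cl p q' W') (h3 : q' ∈ W)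
    (h4 : q ∈ W') (h5 : q' ≠ p) (h6 : q ≠ p) : False :=
  lt_asymm (h1 q' h3 h5) (h2 q h4 h6)

lemma far_EL {S₁ W₁ S₂ W₂ : Set P} (h1 : S₁ ⊆ W₁) {p : P} (hf : Far p W₁) :
    Far p (W₁ ∪ EL S₂ W₂ S₁ W₁) := by
  rintro z (hz | ⟨a, hz⟩)
  · exact hf z hz
  · rcases hz with ⟨rfl, h2, h3⟩ | hz
    · exact hf z (h1 h3)
    · rw [hz.adj.2.1]; exact hf a (h1 hz.2.2.1)

/-- `a'` is `a` with some justified newly frozen points -/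
def New (S₁ S₂ W₂ : Set P) (t : T P) (a a' : P → ℕ) : Prop :=
  ∀ b, a' b = a b ∨ (a b = 0 ∧ a' b = 1 ∧ b ∈ S₂ ∧ b ∉ S₁ ∧ ∃ y ∈ supp t, y ≠ b ∧ Cl b y W₂)

omit [Lab P] in
lemma New.step {S₁ S₂ W₂ : Set P} {t : T P} {a a₁ a' : P → ℕ} (h : New S₁ S₂ W₂ t a₁ a')
    (st : Step a a₁) : Step a a' := by
  intro b
  have := st b
  rcases h b with h | ⟨h1, h2, -⟩ <;> omega

/-- The diamond property. -/
def Dia (t : T P) : Prop :=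
  ∀ (S₁ W₁ : Set P) (h₁ : ℕ) (a₁ : P → ℕ) (S₂ W₂ : Set P) (h₂ : ℕ) (a₂ : P → ℕ),
    S₁ ⊆ W₁ → S₂ ⊆ W₂ → Good S₁ W₁ h₁ a₁ t → Good S₂ W₂ h₂ a₂ t →
    Ren (RV S₁ W₁ S₂ W₂) (S₁ ∩ S₂) (ph (EL S₁ W₁ S₂ W₂) t) (ph (EL S₂ W₂ S₁ W₁) t) ∧
    (∀ a b, MM S₁ W₁ S₂ W₂ a b → a ∈ supp (ph (EL S₁ W₁ S₂ W₂) t) → a₁ a = 0) ∧
    ∃ a', New S₁ S₂ W₂ t a₁ a' ∧
      Good (EL S₂ W₂ S₁ W₁) (W₁ ∪ EL S₂ W₂ S₁ W₁) h₁ a' (ph S₂ t)

/-- The conclusion of the weak diamond property. -/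
def DiaW (t : T P) (S₁ W₁ : Set P) (h₁ : ℕ) (a₁ : P → ℕ) (S₂ W₂ : Set P) : Prop :=
  (∃ K₁ ⊆ EL S₁ W₁ S₂ W₂,
    Ren (RV S₁ W₁ S₂ W₂) (S₁ ∩ S₂) (ph K₁ t) (ph (EL S₂ W₂ S₁ W₁) t) ∧
    (∀ a b, MM S₁ W₁ S₂ W₂ a b → a ∈ supp (ph K₁ t) → a₁ a = 0)) ∧
  ∃ a', New S₁ S₂ W₂ t a₁ a' ∧
    Good (EL S₂ W₂ S₁ W₁) (W₁ ∪ EL S₂ W₂ S₁ W₁) h₁ a' (ph S₂ t)

theorem dia_of_weak {t : T P}
    (hw : ∀ (S₁ W₁ : Set P) (h₁ : ℕ) (a₁ : P → ℕ) (S₂ W₂ : Set P) (h₂ : ℕ) (a₂ : P → ℕ),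
      S₁ ⊆ W₁ → S₂ ⊆ W₂ → Good S₁ W₁ h₁ a₁ t → Good S₂ W₂ h₂ a₂ t → DiaW t S₁ W₁ h₁ a₁ S₂ W₂) :
    Dia t := by
  intro S₁ W₁ h₁ a₁ S₂ W₂ h₂ a₂ hs1 hs2 g1 g2
  obtain ⟨⟨K₁, hK₁, r1, d1⟩, c1⟩ := hw S₁ W₁ h₁ a₁ S₂ W₂ h₂ a₂ hs1 hs2 g1 g2
  obtain ⟨⟨K₂, hK₂, r2, -⟩, -⟩ := hw S₂ W₂ h₂ a₂ S₁ W₁ h₁ a₁ hs2 hs1 g2 g1
  have m1 := r1.mu_eq
  have m2 := r2.mu_eq
  have m3 := mu_ph_le K₂ (ph (EL S₂ W₂ S₁ W₁) t)
  rw [ph_ph_of_subset hK₂] at m3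
  have hsub : supp (ph (EL S₁ W₁ S₂ W₂) t) ⊆ K₁ := by
    by_contra hcon
    have m4 := mu_ph_lt hcon
    rw [ph_ph_of_subset hK₁] at m4
    omega
  have e : ph K₁ t = ph (EL S₁ W₁ S₂ W₂) t := by
    rw [← ph_ph_of_subset hK₁, ph_self (NF_ph _ _) hsub]
  rw [e] at r1 d1
  exact ⟨r1, d1, c1⟩

/-- closure property, a special case of the diamond property -/
theorem Dia.clos {t : T P} (hD : Dia t) {S W H : Set P} {h h' : ℕ} {a b : P → ℕ} (hS : S ⊆ W)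
    (hH : S ⊆ H) (g1 : Good S W h a t) (g2 : Good H (W ∪ H) h' b t) :
    ∃ a', New S H (W ∪ H) t a a' ∧ Good S W h a' (ph H t) := by
  obtain ⟨-, -, a', hn, g⟩ := hD S W h a H (W ∪ H) h' b hS Set.subset_union_right g1 g2
  have e : EL H (W ∪ H) S W = S := by
    apply Set.Subset.antisymm
    · rintro p ⟨q, ⟨-, -, h⟩ | h⟩
      · exact h
      · exact absurd (hH h.2.2.1) h.2.2.2.1
    · intro p hp; exact mem_EL (hH hp) hp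
  rw [e] at g
  exact ⟨a', hn, g.monoW Set.subset_union_right Set.subset_union_left⟩

theorem node_self {S W : Set P} {h : ℕ} {a a₁ a₂ : P → ℕ} {s r : T P} (hS : S ⊆ W)
    (st1 : Step a a₁) (st2 : Step a a₂) (g1 : Good S W (h + 1) a₁ s) (g2 : Good S W (h + 1) a₂ r) :
    Good S W h a (.n s r) :=
  Good.node S a₁ a₂ subset_rfl st1 st2 (g1.monoW hS (Set.union_subset subset_rfl hS))
    (g2.monoW hS (Set.union_subset subset_rfl hS)) (Good.refl (supp_ph_left S (.n s r)))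

theorem two_cancel (N : ℕ) (hD : ∀ t : T P, NF t → mu t < N → Dia t) (m : ℕ) :
    ∀ s t : T P, mu (T.n s t) ≤ m → NF (T.n s t) → mu s < N →
      ∀ (S W : Set P) (h : ℕ) (a a₁ a₂ : P → ℕ), S ⊆ W → Step a a₁ → Step a a₂ →
        Good S W (h + 1) a₁ s → Good S W (h + 1) a₂ (.n s t) → Good S W h a t := by
  induction m with
  | zero => intro s t hm; simp [mu] at hm
  | succ m ih =>
    intro s t hm hn hs S W h a a₁ a₂ hS st1 st2 g1 g2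
    rcases g2.inv_n hn with hsup | ⟨H, b₁, b₂, hH, hprog, sb1, sb2, gs, gt, g3⟩
    · exact Good.refl fun p hp => hsup (Or.inr hp)
    obtain ⟨a', hnew, gc⟩ := (hD s hn.1 hs).clos hS hH g1 gs
    have st' : Step a a' := hnew.step st1
    have gt' : Good H (W ∪ H) h a t :=
      (gt.drop Set.subset_union_right sb2).drop Set.subset_union_right st2
    refine gt'.trans hn.2.1 hH Set.subset_union_right Set.subset_union_left ?_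
    have hlt := mu_ph_lt hprog
    have hnf := NF_ph H (T.n s t)
    rw [ph_n] at g3 hlt hnf
    rcases mul_cases (ph H s) (ph H t) with ⟨h0, -⟩ | ⟨h0, -⟩ | ⟨u, h0, he⟩ | ⟨-, -, -, he⟩
    · rw [h0]; exact Good.refl (by simp [supp])
    · rw [← h0]; exact gc.drop hS st'
    · rw [he] at g3
      rw [h0]; exact node_self hS st' st2 gc g3
    · rw [he] at g3 hlt hnf
      exact ih _ _ (by omega) hnf ((mu_ph_le H s).trans_lt hs) S W h a a' a₂ hS st' st2 gc g3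

/-- Products of good terms are good. -/
theorem two (N : ℕ) (hD : ∀ t : T P, NF t → mu t < N → Dia t) {s r : T P} (hr : NF r)
    (hs : mu s < N) {S W : Set P} {h : ℕ} {a a₁ a₂ : P → ℕ} (hS : S ⊆ W) (st1 : Step a a₁)
    (st2 : Step a a₂) (g1 : Good S W (h + 1) a₁ s) (g2 : Good S W (h + 1) a₂ r) :
    Good S W h a (mul s r) := by
  rcases mul_cases s r with ⟨-, he⟩ | ⟨-, he⟩ | ⟨u, rfl, he⟩ | ⟨-, -, -, he⟩ <;> rw [he]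
  · exact g1.drop hS st1
  · exact Good.refl (by simp [supp])
  · exact two_cancel N hD _ s u le_rfl hr hs S W h a a₁ a₂ hS st1 st2 g1 g2
  · exact node_self hS st1 st2 g1 g2

variable [IsUltrametricDist P]

lemma RV_bu {S₁ W₁ S₂ W₂ : Set P} (h1 : S₁ ⊆ W₁) (h2 : S₂ ⊆ W₂) :
    BU (RV S₁ W₁ S₂ W₂) (S₁ ∩ S₂) := by
  have key : ∀ {S₁ W₁ S₂ W₂ : Set P}, S₂ ⊆ W₂ → ∀ a b b', RV S₁ W₁ S₂ W₂ a b →
      RV S₁ W₁ S₂ W₂ a b' → b = b' := by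
    intro S₁ W₁ S₂ W₂ h2 a b b' hb hb'
    rcases hb with ⟨rfl, h3, h4⟩ | hb <;> rcases hb' with ⟨h5, h6, h7⟩ | hb'
    · exact h5
    · exact absurd h4 hb'.2.1
    · exact absurd h7 hb.2.1
    · by_contra hne
      have c1 := hb.cl2 b' (h2 hb'.2.2.1) (Ne.symm hne)
      have c2 := hb'.cl2 b (h2 hb.2.2.1) hne
      have c3 := dist_eq_of_lt c1
      rw [dist_comm b' a, c3, dist_comm] at c2
      exact lt_irrefl _ c2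
  exact ⟨key h2, fun a a' b h h' => key h1 b a a' h.symm h'.symm,
    fun p hp => Or.inl ⟨rfl, hp.1, hp.2⟩⟩

lemma RV_geo {S₁ W₁ S₂ W₂ : Set P} (h1 : S₁ ⊆ W₁) : Geo (RV S₁ W₁ S₂ W₂) (S₁ ∩ S₂) := by
  intro a b h hne
  have hm := h.mm hne
  refine ⟨hm.adj.2.1, hm.adj.2.2.1, fun p hp => ?_⟩
  have hpa : p ≠ a := by rintro rfl; exact hm.2.1 hp.2
  have := dist_eq_of_lt (hm.cl1 p (h1 hp.1) hpa)
  rw [dist_comm p a, dist_comm p b, this]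

lemma EL_eq_union {S₁ W₁ S₂ W₂ K : Set P} (h1 : S₁ ∩ S₂ ⊆ K) (h2 : K ⊆ EL S₂ W₂ S₁ W₁) :
    K ∪ {b | ∃ a, MM S₁ W₁ S₂ W₂ a b} = EL S₂ W₂ S₁ W₁ := by
  apply Set.Subset.antisymm
  · rintro b (hb | ⟨a, hb⟩)
    · exact h2 hb
    · exact ⟨a, Or.inr hb.symm⟩
  · rintro b ⟨a, ⟨rfl, h3, h4⟩ | hb⟩
    · exact Or.inl (h1 ⟨h4, h3⟩)
    · exact Or.inr ⟨a, hb.symm⟩

/-- passing to the canonical visible set -/
theorem canon {S₁ W₁ S₂ W₂ K : Set P} {h : ℕ} {a : P → ℕ} {x : T P} (hs1 : S₁ ⊆ W₁)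
    (hs2 : S₂ ⊆ W₂) (hx : supp x ⊆ S₂) (h1 : S₁ ∩ S₂ ⊆ K) (h2 : K ⊆ EL S₂ W₂ S₁ W₁)
    (g : Good K (W₁ ∪ K) h a x) :
    Good (EL S₂ W₂ S₁ W₁) (W₁ ∪ EL S₂ W₂ S₁ W₁) h a x ∧ ph (EL S₂ W₂ S₁ W₁) x = ph K x := by
  have := g.addB {b | ∃ a, MM S₁ W₁ S₂ W₂ a b} Set.subset_union_right (by
    rintro b ⟨a₀, hb⟩
    exact ⟨a₀, Or.inl (hs1 hb.1), hb.ne, hb.adj.2.1, hb.cl2.mono (hx.trans hs2)⟩)
  rw [Set.union_assoc, EL_eq_union h1 h2] at this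
  exact this

theorem weak_refl2 {t : T P} (hn : NF t) {S₁ W₁ : Set P} {h₁ : ℕ} {a₁ : P → ℕ} {S₂ W₂ : Set P}
    (hs1 : S₁ ⊆ W₁) (hs2 : S₂ ⊆ W₂) (g1 : Good S₁ W₁ h₁ a₁ t) (hsup : supp t ⊆ S₂) :
    DiaW t S₁ W₁ h₁ a₁ S₂ W₂ := by
  have hC : S₁ ∩ S₂ ⊆ W₁ := fun p hp => hs1 hp.1
  have g : Good (S₁ ∩ S₂) (W₁ ∪ S₁ ∩ S₂) h₁ a₁ t :=
    g1.mono _ _ _ _ (fun p hp => ⟨fun h => ⟨h, hsup hp⟩, fun h => h.1⟩)
      (Set.union_subset subset_rfl hC) hC le_rfl fun _ _ => ⟨id, le_rfl⟩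
  obtain ⟨g', e⟩ := canon hs1 hs2 hsup subset_rfl (fun p hp => mem_EL hp.2 hp.1) g
  refine ⟨⟨S₁ ∩ S₂, fun p hp => mem_EL hp.1 hp.2, ?_, ?_⟩, a₁, fun b => Or.inl rfl, ?_⟩
  · rw [e]; exact Ren.refl_of (RV_bu hs1 hs2).refl (supp_ph_left _ _)
  · intro a b hm ha
    exact absurd (supp_ph_left _ _ ha).2 hm.2.1
  · rw [ph_self hn hsup]; exact g'

theorem weak_refl1 {t : T P} {S₁ W₁ : Set P} {h₁ : ℕ} {a₁ : P → ℕ} {S₂ W₂ : Set P}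
    (hs1 : S₁ ⊆ W₁) (hs2 : S₂ ⊆ W₂) (hsup : supp t ⊆ S₁) :
    DiaW t S₁ W₁ h₁ a₁ S₂ W₂ := by
  refine ⟨⟨S₁ ∩ S₂, fun p hp => mem_EL hp.1 hp.2, ?_, ?_⟩, a₁, fun b => Or.inl rfl, ?_⟩
  · have e : ph (EL S₂ W₂ S₁ W₁) t = ph (S₁ ∩ S₂) t :=
      ph_congr fun p hp => ⟨fun h => ⟨hsup hp, EL_sub h⟩, fun h => mem_EL h.2 h.1⟩
    rw [e]; exact Ren.refl_of (RV_bu hs1 hs2).refl (supp_ph_left _ _)
  · intro a b hm ha
    exact absurd (supp_ph_left _ _ ha).2 hm.2.1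
  · exact Good.refl fun p hp => mem_EL (supp_ph S₂ t hp).1 (hsup (supp_ph S₂ t hp).2)

theorem dia_e : Dia (T.e : T P) :=
  dia_of_weak fun _ _ _ _ _ _ _ _ hs1 hs2 _ _ => weak_refl1 hs1 hs2 (by simp [supp])

theorem dia_v (p : P) : Dia (T.v p) := by
  refine dia_of_weak fun S₁ W₁ h₁ a₁ S₂ W₂ h₂ a₂ hs1 hs2 g1 g2 => ?_
  rcases g1.inv_v with h1 | ⟨f1, -⟩
  · exact weak_refl1 hs1 hs2 (by simpa [supp] using h1)
  rcases g2.inv_v with h2 | ⟨f2, -⟩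
  · exact weak_refl2 (t := T.v p) trivial hs1 hs2 g1 (by simpa [supp] using h2)
  have n2 : p ∉ S₂ := fun h => f2.not_mem (hs2 h)
  refine ⟨⟨∅, Set.empty_subset _, ?_, ?_⟩, a₁, fun b => Or.inl rfl, ?_⟩
  · rw [ph_v_not (Set.notMem_empty p), ph_v_not fun h => n2 (EL_sub h)]; exact Ren.e
  · intro a b _ ha; exact (supp_ph_left _ _ ha).elim
  · rw [ph_v_not n2]; exact Good.refl (by simp [supp])

theorem dia_ed (p q : P) : Dia (T.ed p q) := by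
  refine dia_of_weak fun S₁ W₁ h₁ a₁ S₂ W₂ h₂ a₂ hs1 hs2 g1 g2 => ?_
  have he0 : IsEdge (T.ed p q) p q := Or.inl rfl
  rcases g1.inv_ed with h1 | ⟨c, y, he, hc, hadj, hcl, ha⟩ | ⟨f1, f1', hl⟩
  · exact weak_refl1 hs1 hs2 h1
  · rcases g2.inv_ed with h2 | ⟨c', y', he', hc', hadj', hcl', ha'⟩ | ⟨f2, f2', -⟩
    · exact weak_refl2 (t := T.ed p q) trivial hs1 hs2 g1 h2
    · have ny : y ∉ S₁ := fun h => hcl.not_mem hadj.1 (hs1 h)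
      have ny' : y' ∉ S₂ := fun h => hcl'.not_mem hadj'.1 (hs2 h)
      rcases he.unique he' with ⟨rfl, rfl⟩ | ⟨rfl, rfl⟩
      · refine ⟨⟨S₁ ∩ S₂, fun p hp => mem_EL hp.1 hp.2, ?_, ?_⟩, a₁, fun b => Or.inl rfl, ?_⟩
        · rw [he.ph_left (S := S₁ ∩ S₂) ⟨hc, hc'⟩ (fun h => ny h.1),
            he.ph_left (mem_EL hc' hc) fun h => ny' (EL_sub h)]
          exact Ren.v (Or.inl ⟨rfl, hc, hc'⟩)
        · intro a b hm ha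
          exact absurd (supp_ph_left _ _ ha).2 hm.2.1
        · rw [he.ph_left hc' ny']
          exact Good.refl (by simpa [supp] using mem_EL hc' hc)
      · have hm : MM S₁ W₁ S₂ W₂ c y := MM_of hs1 hs2 hc hc' hadj hcl hcl'
        have hy : y ∈ EL S₂ W₂ S₁ W₁ := ⟨c, Or.inr hm.symm⟩
        refine ⟨⟨{c}, ?_, ?_, ?_⟩, a₁, fun b => Or.inl rfl, ?_⟩
        · rintro _ rfl; exact ⟨y, Or.inr hm⟩
        · rw [he.ph_left (S := {c}) rfl (fun h => hadj.1 (Eq.symm h)),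
            he'.ph_left hy fun h => ny' (EL_sub h)]
          exact Ren.v (Or.inr hm)
        · intro a b _ h
          have : a = c := supp_ph_left {c} _ h
          rw [this]; exact ha
        · rw [he'.ph_left hc' ny']
          exact Good.refl (by simpa [supp] using hy)
    · have np : p ∉ S₂ := fun h => f2.not_mem (hs2 h)
      have nq : q ∉ S₂ := fun h => f2'.not_mem (hs2 h)
      refine ⟨⟨∅, Set.empty_subset _, ?_, ?_⟩, a₁, fun b => Or.inl rfl, ?_⟩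
      · rw [he0.ph_none (Set.notMem_empty _) (Set.notMem_empty _),
          he0.ph_none (fun h => np (EL_sub h)) fun h => nq (EL_sub h)]
        exact Ren.e
      · intro a b _ ha; exact (supp_ph_left _ _ ha).elim
      · rw [he0.ph_none np nq]; exact Good.refl (by simp [supp])
  · have np : p ∉ EL S₂ W₂ S₁ W₁ := fun h => (far_EL hs1 f1).not_mem (Or.inr h)
    have nq : q ∉ EL S₂ W₂ S₁ W₁ := fun h => (far_EL hs1 f1').not_mem (Or.inr h)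
    rcases g2.inv_ed with h2 | ⟨c, y, he, hc, hadj, hcl, ha⟩ | ⟨f2, f2', -⟩
    · exact weak_refl2 (t := T.ed p q) trivial hs1 hs2 g1 h2
    · have ny : y ∉ S₂ := fun h => hcl.not_mem hadj.1 (hs2 h)
      have hfc : Far c W₁ ∧ h₁ ≤ lev c + 1 := by
        have := hadj.2.2.2
        rcases he0.unique he with ⟨rfl, rfl⟩ | ⟨rfl, rfl⟩
        · exact ⟨f1, by omega⟩
        · exact ⟨f1', by omega⟩
      refine ⟨⟨∅, Set.empty_subset _, ?_, ?_⟩, frz {c} a₁, ?_, ?_⟩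
      · rw [he0.ph_none (Set.notMem_empty _) (Set.notMem_empty _), he0.ph_none np nq]
        exact Ren.e
      · intro a b _ ha; exact (supp_ph_left _ _ ha).elim
      · intro b
        unfold frz
        by_cases hb : b ∈ ({c} : Set P)
        · rw [if_pos hb]
          by_cases h0 : a₁ b = 0
          · right
            have : b = c := hb
            subst this
            exact ⟨h0, by omega, hc, fun h => hfc.1.not_mem (hs1 h), y, he.right_mem,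
              hadj.1.symm, hcl⟩
          · left; omega
        · left; rw [if_neg hb]
      · rw [he.ph_left hc ny]
        refine Good.killV c (far_EL hs1 hfc.1) ?_
        have := hfc.2
        unfold frz
        rw [if_pos (Set.mem_singleton c)]
        omega
    · have np' : p ∉ S₂ := fun h => f2.not_mem (hs2 h)
      have nq' : q ∉ S₂ := fun h => f2'.not_mem (hs2 h)
      refine ⟨⟨∅, Set.empty_subset _, ?_, ?_⟩, a₁, fun b => Or.inl rfl, ?_⟩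
      · rw [he0.ph_none (Set.notMem_empty _) (Set.notMem_empty _), he0.ph_none np nq]
        exact Ren.e
      · intro a b _ ha; exact (supp_ph_left _ _ ha).elim
      · rw [he0.ph_none np' nq']; exact Good.refl (by simp [supp])

end Pool.Agent.H410Z.RL
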